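import Pool.Agent.Work.MP_0f6836_lc.Refl

/-!
# Every ordinal below `κ` has a code
-/

namespace Kriz

open Ordinal Tm

/-- sums of two sum terms -/
theorem exists_add_true {x y : Tm} (hx : NF true x) (hy : NF true y) :
    ∃ w, NF true w ∧ w.val = x.val + y.val := by
  induction x with
  | z => exact ⟨y, hy, by simp [val]⟩
  | q _ _ _ _ => exact absurd hx not_NF_true_q
  | c v p x _ ih =>
    obtain ⟨hp, hx', hv, hl⟩ := hx
    obtain ⟨w, hw, hwv⟩ := ih hx'
    by_cases h : lead w ≤ theta p.val v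
    · exact ⟨c v p w, ⟨hp, hw, hv, h⟩, by rw [val_c, val_c, hwv, add_assoc]⟩
    · refine ⟨w, hw, ?_⟩
      rw [val_c, add_assoc, ← hwv]
      have h1 : IsPrincipal (· + ·) (lead w) := by
        cases w with
        | z => exact isPrincipal_zero
        | c _ _ _ => exact theta_principal
        | q _ _ => exact isPrincipal_zero
      exact (h1.add_eq_right_of_le (not_le.1 h) (lead_le_val w)).symm

theorem exists_add_false {p r : Tm} (hp : NF false p) (hr : NF false r) :
    ∃ w, NF false w ∧ w.val = p.val + r.val := by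
  induction r generalizing p with
  | z => exact ⟨p, hp, by simp [val]⟩
  | c _ _ _ _ _ => exact absurd hr not_NF_false_c
  | q r y ihr _ =>
    obtain ⟨hr', hy, h0⟩ := hr
    cases p with
    | z => exact ⟨q r y, ⟨hr', hy, h0⟩, by simp [val]⟩
    | c _ _ _ => exact absurd hp not_NF_false_c
    | q p x =>
      obtain ⟨hp', hx, h0'⟩ := hp
      by_cases hr0 : r.val = 0
      · obtain ⟨w, hw, hwv⟩ := exists_add_true hx hy
        have he : Lam * p.val + w.val = (Lam * p.val + x.val) + (Lam * r.val + y.val) := by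
          rw [hwv, hr0, mul_zero, zero_add, add_assoc]
        refine ⟨q p w, ⟨hp', hw, ?_⟩, he⟩
        rw [he]
        intro h
        exact h0' (by simpa using (le_self_add.trans_eq h))
      · obtain ⟨w, hw, hwv⟩ := ihr hp' hr'
        have he : Lam * w.val + y.val = (Lam * p.val + x.val) + (Lam * r.val + y.val) := by
          rw [hwv, ← add_assoc, add_assoc (Lam * p.val), add_Lam_mul (val_lt_Lam hx) hr0,
            ← mul_add]
        refine ⟨q w y, ⟨hw, hy, ?_⟩, he⟩
        rw [he]
        intro h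
        exact h0' (by simpa using (le_self_add.trans_eq h))

theorem exists_code {a : Ordinal.{0}} (ha : a ∈ C (Lam ^ (ω : Ordinal.{0})) 0) :
    ∃ p, NF false p ∧ p.val = a := by
  refine C.induct (P := fun a => ∃ p, NF false p ∧ p.val = a) ⟨z, NF_z _, rfl⟩
    (fun ξ hξ => absurd hξ (not_lt_of_ge zero_le)) ?_ ?_ ?_ ha
  · rintro a b - - ⟨p, hp, rfl⟩ ⟨r, hr, rfl⟩
    exact exists_add_false hp hr
  · rintro a - ⟨p, hp, rfl⟩
    by_cases h0 : p.val = 0
    · exact ⟨z, NF_z _, by rw [h0, mul_zero]; rfl⟩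
    · refine ⟨q p z, ⟨hp, NF_z _, ?_⟩, by simp [val]⟩
      simp only [val, add_zero]
      exact mul_ne_zero Lam_pos.ne' h0
  · rintro δ w - - ⟨p, hp, rfl⟩
    by_cases hv : Valid w p.val
    · refine ⟨q z (c w p z), ⟨NF_z _, ⟨hp, NF_z _, hv, zero_le⟩, ?_⟩, by simp [val]⟩
      simp only [val, mul_zero, zero_add, add_zero]
      exact (theta_pos hv).ne'
    · exact ⟨z, NF_z _, by rw [theta_of_not_valid hv]; rfl⟩

theorem exists_code_true {a : Ordinal.{0}} (ha : a ∈ C (Lam ^ (ω : Ordinal.{0})) 0)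
    (hL : a < Lam) : ∃ x, NF true x ∧ x.val = a := by
  obtain ⟨p, hp, rfl⟩ := exists_code ha
  cases p with
  | z => exact ⟨z, NF_z _, rfl⟩
  | c _ _ _ => exact absurd hp not_NF_false_c
  | q p x =>
    refine ⟨x, hp.2.1, ?_⟩
    have h0 : p.val = 0 := by
      by_contra hne
      have : Lam ≤ (q p x).val := by
        rw [val_q]
        exact (le_mul_of_one_le_right' (Order.one_le_iff_pos.2 (pos_iff_ne_zero.2 hne))).trans
          le_self_add
      exact absurd hL (not_lt_of_ge this)
    rw [val_q, h0, mul_zero, zero_add]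

theorem exists_not_mem : ∃ a < Om 1, a ∉ C (Lam ^ (ω : Ordinal.{0})) 0 := by
  by_contra hcon
  push Not at hcon
  have h1 : Set.Iio (Om 1) ⊆ Set.range val := by
    intro a ha
    obtain ⟨p, -, hp⟩ := exists_code (hcon a ha)
    exact ⟨p, hp⟩
  have h2 : (Set.Iio (Om 1)).Countable := (Set.countable_range val).mono h1
  rw [Om] at h2
  simp only [one_ne_zero, if_false, Nat.cast_one] at h2
  have h3 : Cardinal.mk (Set.Iio (ω_ (1 : Ordinal.{0}))) =
      Cardinal.lift.{1, 0} (Cardinal.aleph 1) := by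
    rw [Cardinal.mk_Iio_ordinal, card_omega]
  have h4 := Cardinal.le_aleph0_iff_set_countable.2 h2
  rw [h3, ← Cardinal.lift_aleph0.{1, 0}, Cardinal.lift_le] at h4
  exact absurd h4 (not_le_of_gt Cardinal.aleph0_lt_aleph_one)

theorem kappa_lt : kappa < Om 1 := by
  obtain ⟨a, ha, hm⟩ := exists_not_mem
  exact (csInf_le' hm).trans_lt ha

theorem mem_of_lt_kappa {a : Ordinal.{0}} (h : a < kappa) :
    a ∈ C (Lam ^ (ω : Ordinal.{0})) 0 := by
  by_contra hne
  exact absurd h (not_lt_of_ge (csInf_le' hne))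

theorem exists_code_kappa {a : Ordinal.{0}} (h : a < kappa) :
    ∃ x, NF true x ∧ x.val = a :=
  exists_code_true (mem_of_lt_kappa h) ((h.trans kappa_lt).trans (Om_lt_Lam 1))

end Kriz
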