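import Mathlib

/-!
# Kriz trees and the collapsing functions: definitions

MP_0f6836_lc, helper24.
-/

namespace Kriz

open Ordinal

noncomputable section

/-- `Ω_0 = 1` and `Ω_v = ω_v` for `v ≥ 1`. -/
def Om (v : ℕ) : Ordinal.{0} := if v = 0 then 1 else ω_ (v : Ordinal.{0})

/-- `Λ = Ω_ω`, the supremum of the `Ω_v`. -/
def Lam : Ordinal.{0} := ω_ ω

/-- closure of `{0} ∪ ζ` under `+`, `x ↦ Λ * x` and `δ ↦ F δ w` for `δ < α` -/
inductive InC (α ζ : Ordinal.{0}) (F : ∀ δ, δ < α → ℕ → Ordinal.{0}) : Ordinal.{0} → Prop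
  | zero : InC α ζ F 0
  | base {ξ : Ordinal.{0}} : ξ < ζ → InC α ζ F ξ
  | add {a b : Ordinal.{0}} : InC α ζ F a → InC α ζ F b → InC α ζ F (a + b)
  | mul {a : Ordinal.{0}} : InC α ζ F a → InC α ζ F (Lam * a)
  | coll {δ : Ordinal.{0}} (w : ℕ) (h : δ < α) : InC α ζ F δ → InC α ζ F (F δ h w)

/-- the ordinals `ζ` in `[Ω_v, Ω_{v+1})` with `α ∈ C(α, ζ)` and `C(α, ζ) ∩ Ω_{v+1} ⊆ ζ` -/
def cand (v : ℕ) (α : Ordinal.{0}) (F : ∀ δ, δ < α → ℕ → Ordinal.{0}) : Set Ordinal.{0} :=
  {ζ | Om v ≤ ζ ∧ ζ < Om (v + 1) ∧ InC α ζ F α ∧ ∀ ξ, InC α ζ F ξ → ξ < Om (v + 1) → ξ < ζ}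

/-- the collapsing functions: `theta α v` is the least element of `cand v α` (and `0` if there is
none), by recursion on `α` -/
def theta (α : Ordinal.{0}) (v : ℕ) : Ordinal.{0} :=
  sInf (cand v α (fun δ (_ : δ < α) w => theta δ w))
termination_by α
decreasing_by assumption

/-- `C(α, ζ)` -/
def C (α ζ : Ordinal.{0}) : Set Ordinal.{0} := {ξ | InC α ζ (fun δ _ w => theta δ w) ξ}

/-- `α` is `v`-valid if the defining set of `theta α v` is nonempty -/
def Valid (v : ℕ) (α : Ordinal.{0}) : Prop := (cand v α (fun δ _ w => theta δ w)).Nonempty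

/-- `κ`, the least ordinal that is not in the closure of `0` under `+`, `x ↦ Λ * x` and the
collapsing functions with arguments below `Λ ^ ω` -/
def kappa : Ordinal.{0} := sInf {a | a ∉ C (Lam ^ ω) 0}

end

/-! ## Trees -/

/-- rooted trees with edge labels: `nil` is the tree with one vertex, `cons l s r` is `r` with
one more child of the root, the root of `s`, joined by an edge with label `l` -/
inductive KT : Type
  | nil : KT
  | cons (l : ℕ) (s r : KT) : KT

namespace KT

/-- the list of children of the root -/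
def ch : KT → List (ℕ × KT)
  | nil => []
  | cons l s r => (l, s) :: ch r

/-- put the children of two trees together -/
def app : KT → KT → KT
  | nil, t => t
  | cons l s r, t => cons l s (app r t)

end KT

/-- `Emb l t s`: some vertex of `s` can be reached from the root by edges with labels `≥ l` such
that `t` embeds with its root mapped to this vertex -/
inductive Emb : ℕ → KT → KT → Prop
  | here {l : ℕ} {t s : KT} (σ : Fin t.ch.length → Fin s.ch.length) (hσ : Function.Injective σ)
      (h1 : ∀ i, (t.ch.get i).1 ≤ (s.ch.get (σ i)).1)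
      (h2 : ∀ i, Emb (t.ch.get i).1 (t.ch.get i).2 (s.ch.get (σ i)).2) : Emb l t s
  | down {l : ℕ} {t s : KT} (j : Fin s.ch.length) (h : l ≤ (s.ch.get j).1)
      (h' : Emb l t (s.ch.get j).2) : Emb l t s

/-- `t` embeds into `s` with root mapped to root -/
def At (t s : KT) : Prop :=
  ∃ σ : Fin t.ch.length → Fin s.ch.length, Function.Injective σ ∧
    (∀ i, (t.ch.get i).1 ≤ (s.ch.get (σ i)).1) ∧
    ∀ i, Emb (t.ch.get i).1 (t.ch.get i).2 (s.ch.get (σ i)).2

/-! ## Terms -/

/-- terms: `z` is `0`, `c v p x` is `theta p v + x`, `q p x` is `Λ * p + x` -/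
inductive Tm : Type
  | z : Tm
  | c (v : ℕ) (p x : Tm) : Tm
  | q (p x : Tm) : Tm
  deriving Encodable

namespace Tm

/-- the value of a term -/
noncomputable def val : Tm → Ordinal.{0}
  | z => 0
  | c v p x => theta p.val v + x.val
  | q p x => Lam * p.val + x.val

/-- the leading component of a sum term -/
noncomputable def lead : Tm → Ordinal.{0}
  | c v p _ => theta p.val v
  | _ => 0

/-- `NF true x`: `x` is a sum term in normal form;
`NF false p`: `p` is a polynomial term in normal form -/
def NF : Bool → Tm → Prop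
  | _, z => True
  | true, c v p x => NF false p ∧ NF true x ∧ Valid v p.val ∧ lead x ≤ theta p.val v
  | false, q p x => NF false p ∧ NF true x ∧ Lam * p.val + x.val ≠ 0
  | true, q _ _ => False
  | false, c _ _ _ => False

/-- number of constructors other than `z` -/
def size : Tm → ℕ
  | z => 0
  | c _ p x => p.size + x.size + 1
  | q p x => p.size + x.size + 1

/-- the label of the edge that leads to the tree of `x` -/
def lab : Tm → ℕ
  | c v _ _ => v + 2
  | _ => 1

/-- the tree of a term, `tr true` for sum terms and `tr false` for polynomial terms -/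
def tr : Bool → Tm → KT
  | true, c v p x => .cons (v + 1) (tr false p) (.cons (lab x) (tr true x) .nil)
  | true, _ => .nil
  | false, q p x => .cons (lab x) (tr true x) ((tr false p).app (tr false p))
  | false, _ => .cons 1 .nil .nil

/-- the list of digits of a polynomial term, with multiplicities -/
def dig : Tm → List Tm
  | q p x => x :: (dig p ++ dig p)
  | _ => [z]

/-- the weight of the digits `≥ θ` -/
noncomputable def cnt (θ : Ordinal.{0}) : Tm → ℕ
  | q p x => (open Classical in if θ ≤ x.val then 1 else 0) + 2 * cnt θ p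
  | _ => 0

end Tm

end Kriz
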