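import Pool.Agent.Work.MP_0f6836_lc.Codes

/-!
# Finite rooted trees with labelled edges, inf-preserving embeddings, Kriz's quasiordering
-/

namespace Kriz

/-- A finite rooted tree whose edges carry positive integer labels, given by the parent function;
the parent of the root is the root, and `label v` (for `v` not the root) is the label of the edge
between `v` and its parent. -/
structure LTree where
  V : Type
  fin : Finite V
  root : V
  parent : V → V
  parent_root : parent root = root
  reach : ∀ v, ∃ n, parent^[n] v = root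
  label : V → ℕ
  label_pos : ∀ v, v ≠ root → 0 < label v

namespace LTree

/-- `u ≼ v`: `u` lies on the path from the root to `v` -/
def Anc (T : LTree) (u v : T.V) : Prop := ∃ n, T.parent^[n] v = u

/-- `w = u ∧ v`: `w` is the `≼`-greatest vertex below both `u` and `v` -/
def IsInf (T : LTree) (w u v : T.V) : Prop :=
  T.Anc w u ∧ T.Anc w v ∧ ∀ z, T.Anc z u → T.Anc z v → T.Anc z w

/-- Kriz's quasiordering: `S ≤ T` if there is an injective inf-preserving map `f` such that for
every edge `{parent v, v}` of `S` its label is at most the label of every edge on the path from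
`f (parent v)` to `f v`; these edges are the edges `{parent z, z}` with
`f (parent v) ≺ z ≼ f v`. -/
def Le (S T : LTree) : Prop :=
  ∃ f : S.V → T.V, Function.Injective f ∧
    (∀ u v w, S.IsInf w u v → T.IsInf (f w) (f u) (f v)) ∧
    ∀ v, v ≠ S.root → ∀ z, T.Anc (f (S.parent v)) z → z ≠ f (S.parent v) → T.Anc z (f v) →
      S.label v ≤ T.label z

theorem Anc.refl (T : LTree) (u : T.V) : T.Anc u u := ⟨0, rfl⟩

theorem Anc.trans {T : LTree} {u v w : T.V} (h : T.Anc u v) (h' : T.Anc v w) : T.Anc u w := by
  obtain ⟨n, rfl⟩ := h
  obtain ⟨m, rfl⟩ := h'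
  exact ⟨n + m, by rw [Function.iterate_add_apply]⟩

theorem anc_parent (T : LTree) (u : T.V) : T.Anc (T.parent u) u := ⟨1, rfl⟩

theorem anc_root (T : LTree) (u : T.V) : T.Anc T.root u := T.reach u

theorem iterate_root (T : LTree) (n : ℕ) : T.parent^[n] T.root = T.root :=
  Function.iterate_fixed T.parent_root n

/-- a vertex that is its own proper iterated parent is the root -/
theorem eq_root_of_cycle (T : LTree) {u : T.V} {n : ℕ} (hn : 0 < n) (h : T.parent^[n] u = u) :
    u = T.root := by
  obtain ⟨m, hm⟩ := T.reach u
  have h1 : ∀ k, T.parent^[n * k] u = u := by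
    intro k
    induction k with
    | zero => rfl
    | succ k ih => rw [Nat.mul_succ, Function.iterate_add_apply, h, ih]
  have h2 : n * m = (n * m - m) + m := by
    have : m ≤ n * m := Nat.le_mul_of_pos_left m hn
    omega
  have h3 := h1 m
  rw [h2, Function.iterate_add_apply, hm, iterate_root] at h3
  exact h3.symm

theorem Anc.antisymm {T : LTree} {u v : T.V} (h : T.Anc u v) (h' : T.Anc v u) : u = v := by
  obtain ⟨n, hn⟩ := h
  obtain ⟨m, hm⟩ := h'
  rcases Nat.eq_zero_or_pos n with rfl | hn0
  · exact hn.symm
  · have h1 : T.parent^[m + n] v = v := by rw [Function.iterate_add_apply, hn, hm]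
    have h2 := T.eq_root_of_cycle (by omega) h1
    rw [h2, iterate_root] at hn
    rw [← hn, h2]

theorem not_anc_parent {T : LTree} {u : T.V} (hu : u ≠ T.root) : ¬ T.Anc u (T.parent u) := by
  intro h
  have h1 := h.antisymm (anc_parent T u)
  exact hu (T.eq_root_of_cycle (n := 1) one_pos h1.symm)

theorem parent_ne {T : LTree} {u : T.V} (hu : u ≠ T.root) : T.parent u ≠ u := fun h =>
  hu (T.eq_root_of_cycle (n := 1) one_pos h)

/-- the children of `u` -/
def IsChild (T : LTree) (c u : T.V) : Prop := c ≠ T.root ∧ T.parent c = u

/-- a proper descendant lies below a child -/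
theorem exists_child {T : LTree} {u v : T.V} (h : T.Anc u v) (hne : v ≠ u) :
    ∃ c, T.IsChild c u ∧ T.Anc c v := by
  obtain ⟨n, hn⟩ := h
  induction n generalizing v with
  | zero => exact absurd hn hne
  | succ n ih =>
    rw [Function.iterate_succ_apply] at hn
    by_cases h1 : T.parent v = u
    · refine ⟨v, ⟨?_, h1⟩, Anc.refl T v⟩
      rintro rfl
      rw [T.parent_root] at h1
      exact hne h1
    · obtain ⟨c, hc, hcv⟩ := ih h1 hn
      exact ⟨c, hc, hcv.trans (anc_parent T v)⟩

end LTree

end Kriz
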