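import Pool.Agent.Work.MP_0f6836_lc.LTree

/-!
# From recursive trees to official trees
-/

namespace Kriz

namespace LTree

theorem anc_cases {T : LTree} {z b : T.V} (h : T.Anc z b) : z = b ∨ T.Anc z (T.parent b) := by
  obtain ⟨n, hn⟩ := h
  cases n with
  | zero => exact Or.inl hn.symm
  | succ n => exact Or.inr ⟨n, by rwa [Function.iterate_succ_apply] at hn⟩

theorem isInf_anc {T : LTree} {a b : T.V} (h : T.Anc a b) : T.IsInf a a b :=
  ⟨Anc.refl T a, h, fun _ hz _ => hz⟩

theorem isInf_children {T : LTree} {a b b' : T.V} (hb : T.IsChild b a) (hb' : T.IsChild b' a)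
    (hne : b ≠ b') : T.IsInf a b b' := by
  refine ⟨⟨1, hb.2⟩, ⟨1, hb'.2⟩, fun z hz hz' => ?_⟩
  rcases anc_cases hz with rfl | h
  · rcases anc_cases hz' with h1 | h1
    · exact absurd h1 hne
    · rw [hb'.2, ← hb.2] at h1
      exact absurd h1 (not_anc_parent hb.1)
  · rwa [hb.2] at h

theorem IsChild.anc {T : LTree} {c a : T.V} (h : T.IsChild c a) : T.Anc a c := ⟨1, h.2⟩

theorem IsChild.not_anc {T : LTree} {c a : T.V} (h : T.IsChild c a) : ¬ T.Anc c a := by
  rw [← h.2]; exact not_anc_parent h.1

theorem IsChild.ne {T : LTree} {c a : T.V} (h : T.IsChild c a) : c ≠ a := by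
  rintro rfl
  exact h.not_anc (Anc.refl T _)

/-- `t` describes the subtree of the vertex `a` -/
inductive Unf (T : LTree) : T.V → KT → Prop
  | mk (a : T.V) (t : KT) (e : Fin t.ch.length → T.V) (he : Function.Injective e)
      (h1 : ∀ i, T.IsChild (e i) a) (h2 : ∀ b, T.IsChild b a → ∃ i, e i = b)
      (h3 : ∀ i, (t.ch.get i).1 = T.label (e i)) (h4 : ∀ i, Unf T (e i) (t.ch.get i).2) :
      Unf T a t

/-- climbing up a path -/
theorem path_emb {T : LTree} {l : ℕ} {T0 : KT} {d : T.V} : ∀ (n : ℕ) (z : T.V) (tz : KT),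
    T.parent^[n] d = z → (∀ z', T.Anc z z' → z' ≠ z → T.Anc z' d → l ≤ T.label z') →
    T.Unf z tz → (∀ td, T.Unf d td → Emb l T0 td) → Emb l T0 tz
  | 0, z, tz, hz, _, hu, hd => by
    have hz : d = z := hz
    subst hz
    exact hd tz hu
  | n + 1, z, tz, hz, hl, hu, hd => by
    by_cases h0 : T.parent^[n] d = T.root
    · have hz' : z = T.root := by
        rw [← hz, Function.iterate_succ_apply', h0, T.parent_root]
      exact path_emb n z tz (h0.trans hz'.symm) hl hu hd
    · have hc : T.IsChild (T.parent^[n] d) z := ⟨h0, by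
        rw [← Function.iterate_succ_apply' (f := T.parent)]; exact hz⟩
      cases hu with
      | mk _ _ e he h1 h2 h3 h4 =>
        obtain ⟨j, hj⟩ := h2 _ hc
        refine Emb.down j ?_ ?_
        · rw [h3 j, hj]
          exact hl _ hc.anc hc.ne ⟨n, rfl⟩
        · refine path_emb n (e j) _ hj.symm ?_ (h4 j) hd
          intro z' hz1 hz2 hz3
          rw [hj] at hz1
          refine hl z' (hc.anc.trans hz1) ?_ hz3
          rintro rfl
          exact hc.not_anc hz1

/-- official embeddings give embeddings of the descriptions -/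
theorem at_of_le {S T : LTree} {f : S.V → T.V} (hf : Function.Injective f)
    (hinf : ∀ u v w, S.IsInf w u v → T.IsInf (f w) (f u) (f v))
    (hlab : ∀ v, v ≠ S.root → ∀ z, T.Anc (f (S.parent v)) z → z ≠ f (S.parent v) →
      T.Anc z (f v) → S.label v ≤ T.label z) {a : S.V} {t : KT} (ht : S.Unf a t) :
    ∀ s, T.Unf (f a) s → At t s := by
  induction ht with
  | mk a t e he h1 h2 h3 h4 ih =>
    intro s hs
    cases hs with
    | mk _ _ e' he' g1 g2 g3 g4 =>
      have key : ∀ i, ∃ j, T.Anc (e' j) (f (e i)) := by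
        intro i
        have hA : T.Anc (f a) (f (e i)) := (hinf a (e i) a (isInf_anc (h1 i).anc)).2.1
        have hne : f (e i) ≠ f a := fun h => (h1 i).ne (hf h)
        obtain ⟨c, hc, hcv⟩ := exists_child hA hne
        obtain ⟨j, hj⟩ := g2 c hc
        exact ⟨j, by rw [hj]; exact hcv⟩
      choose σ hσ using key
      have hlab' : ∀ i z, T.Anc (f a) z → z ≠ f a → T.Anc z (f (e i)) →
          S.label (e i) ≤ T.label z := by
        intro i z z1 z2 z3
        have := hlab (e i) (h1 i).1 z
        rw [(h1 i).2] at this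
        exact this z1 z2 z3
      refine ⟨σ, ?_, ?_, ?_⟩
      · intro i i' hii
        by_contra hne
        have hne' : e i ≠ e i' := fun h => hne (he h)
        have h5 := hinf _ _ _ (isInf_children (h1 i) (h1 i') hne')
        have h6 := h5.2.2 (e' (σ i)) (hσ i) (by rw [hii]; exact hσ i')
        exact (g1 (σ i)).not_anc h6
      · intro i
        rw [h3 i, g3 (σ i)]
        exact hlab' i _ (g1 (σ i)).anc (g1 (σ i)).ne (hσ i)
      · intro i
        obtain ⟨n, hn⟩ := hσ i
        refine path_emb n (e' (σ i)) _ hn ?_ (g4 (σ i)) ?_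
        · intro z z1 z2 z3
          rw [h3 i]
          refine hlab' i z ((g1 (σ i)).anc.trans z1) ?_ z3
          rintro rfl
          exact (g1 (σ i)).not_anc z1
        · intro td htd
          exact Emb.of_at (ih i td htd)

theorem emb_of_le {S T : LTree} (h : S.Le T) {t s : KT} (ht : S.Unf S.root t)
    (hs : T.Unf T.root s) : Emb 1 t s := by
  obtain ⟨f, hf, hinf, hlab⟩ := h
  obtain ⟨n, hn⟩ := T.reach (f S.root)
  refine path_emb n T.root s hn ?_ hs ?_
  · intro z _ z2 _
    exact T.label_pos z z2
  · intro td htd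
    exact Emb.of_at (at_of_le hf hinf hlab ht td htd)

/-! ## Construction of the official tree -/

/-- the one-point tree -/
abbrev single : LTree where
  V := Unit
  fin := inferInstance
  root := ()
  parent := id
  parent_root := rfl
  reach := fun _ => ⟨0, rfl⟩
  label := fun _ => 0
  label_pos := fun _ h => absurd rfl h

section graft

variable (l : ℕ) (hl : 0 < l) (S R : LTree)

open Classical in
/-- parent function of the grafted tree -/
noncomputable def gParent : S.V ⊕ R.V → S.V ⊕ R.V
  | .inl a => if a = S.root then .inr R.root else .inl (S.parent a)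
  | .inr a => .inr (R.parent a)

open Classical in
/-- labels of the grafted tree -/
noncomputable def gLabel : S.V ⊕ R.V → ℕ
  | .inl a => if a = S.root then l else S.label a
  | .inr a => R.label a

variable {S R}

theorem gParent_inr (a : R.V) : gParent S R (.inr a) = .inr (R.parent a) := rfl

theorem gParent_inl_root : gParent S R (.inl S.root) = .inr R.root := by
  simp [gParent]

theorem gParent_inl {a : S.V} (h : a ≠ S.root) :
    gParent S R (.inl a) = .inl (S.parent a) := by
  simp [gParent, h]

theorem gLabel_inr (a : R.V) : gLabel l S R (.inr a) = R.label a := rfl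

theorem gLabel_inl_root : gLabel l S R (.inl S.root) = l := by
  simp [gLabel]

theorem gLabel_inl {a : S.V} (h : a ≠ S.root) : gLabel l S R (.inl a) = S.label a := by
  simp [gLabel, h]

theorem iterate_inr (n : ℕ) (a : R.V) :
    (gParent S R)^[n] (.inr a) = .inr (R.parent^[n] a) := by
  induction n generalizing a with
  | zero => rfl
  | succ n ih => rw [Function.iterate_succ_apply, Function.iterate_succ_apply, gParent_inr, ih]

theorem reach_inl : ∀ (n : ℕ) (a : S.V), S.parent^[n] a = S.root →
    ∃ m, (gParent S R)^[m] (.inl a) = .inr R.root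
  | 0, a, h => by
    have h : a = S.root := h
    subst h
    exact ⟨1, gParent_inl_root⟩
  | n + 1, a, h => by
    by_cases ha : a = S.root
    · subst ha
      exact ⟨1, gParent_inl_root⟩
    · rw [Function.iterate_succ_apply] at h
      obtain ⟨m, hm⟩ := reach_inl n _ h
      exact ⟨m + 1, by rw [Function.iterate_succ_apply, gParent_inl ha, hm]⟩

variable (S R)

/-- the tree `R` with a new child of the root: the root of `S`, joined by an edge labelled `l` -/
noncomputable abbrev graft : LTree where
  V := S.V ⊕ R.V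
  fin := by
    have := S.fin
    have := R.fin
    infer_instance
  root := .inr R.root
  parent := gParent S R
  parent_root := by rw [gParent_inr, R.parent_root]
  reach := by
    rintro (a | a)
    · obtain ⟨n, hn⟩ := S.reach a
      exact reach_inl n a hn
    · obtain ⟨n, hn⟩ := R.reach a
      exact ⟨n, by rw [iterate_inr, hn]⟩
  label := gLabel l S R
  label_pos := by
    rintro (a | a) h
    · by_cases ha : a = S.root
      · subst ha; rw [gLabel_inl_root]; exact hl
      · rw [gLabel_inl l ha]; exact S.label_pos a ha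
    · rw [gLabel_inr]
      exact R.label_pos a (fun ha => h (by rw [ha]))

variable {S R}

theorem child_inl {a c : S.V} (h : S.IsChild c a) :
    (graft l hl S R).IsChild (.inl c) (.inl a) :=
  ⟨Sum.inl_ne_inr, by
    show gParent S R (.inl c) = .inl a
    rw [gParent_inl h.1, h.2]⟩

theorem child_inr {a c : R.V} (h : R.IsChild c a) :
    (graft l hl S R).IsChild (.inr c) (.inr a) :=
  ⟨fun h' => h.1 (Sum.inr_injective h'), by
    show gParent S R (.inr c) = .inr a
    rw [gParent_inr, h.2]⟩

theorem child_new : (graft l hl S R).IsChild (.inl S.root) (.inr R.root) :=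
  ⟨Sum.inl_ne_inr, gParent_inl_root⟩

theorem child_of_inl {a : S.V} {b : S.V ⊕ R.V} (h : (graft l hl S R).IsChild b (.inl a)) :
    ∃ c, S.IsChild c a ∧ b = .inl c := by
  obtain ⟨-, h2⟩ := h
  have h2 : gParent S R b = .inl a := h2
  rcases b with b | b
  · by_cases hb : b = S.root
    · subst hb
      rw [gParent_inl_root] at h2
      exact absurd h2 Sum.inr_ne_inl
    · rw [gParent_inl hb] at h2
      exact ⟨b, ⟨hb, Sum.inl_injective h2⟩, rfl⟩
  · rw [gParent_inr] at h2
    exact absurd h2 Sum.inr_ne_inl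

theorem child_of_inr {a : R.V} {b : S.V ⊕ R.V} (h : (graft l hl S R).IsChild b (.inr a)) :
    (∃ c, R.IsChild c a ∧ b = .inr c) ∨ (a = R.root ∧ b = .inl S.root) := by
  obtain ⟨h1, h2⟩ := h
  have h2 : gParent S R b = .inr a := h2
  rcases b with b | b
  · by_cases hb : b = S.root
    · subst hb
      rw [gParent_inl_root] at h2
      exact Or.inr ⟨(Sum.inr_injective h2).symm, rfl⟩
    · rw [gParent_inl hb] at h2
      exact absurd h2 Sum.inl_ne_inr
  · rw [gParent_inr] at h2
    exact Or.inl ⟨b, ⟨fun hb => h1 (by rw [hb]), Sum.inr_injective h2⟩, rfl⟩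

theorem unf_inl {a : S.V} {t : KT} (h : S.Unf a t) : (graft l hl S R).Unf (.inl a) t := by
  induction h with
  | mk a t e he h1 h2 h3 h4 ih =>
    refine Unf.mk (T := graft l hl S R) (.inl a) t (fun i => .inl (e i))
      (fun i j hij => he (Sum.inl_injective hij)) (fun i => child_inl l hl (h1 i))
      (fun b hb => ?_) (fun i => ?_) ih
    · obtain ⟨c, hc, rfl⟩ := child_of_inl l hl hb
      obtain ⟨i, rfl⟩ := h2 c hc
      exact ⟨i, rfl⟩
    · show _ = gLabel l S R (.inl (e i))
      rw [gLabel_inl l (h1 i).1, h3 i]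

theorem unf_inr {a : R.V} {t : KT} (h : R.Unf a t) (ha : a ≠ R.root) :
    (graft l hl S R).Unf (.inr a) t := by
  induction h with
  | mk a t e he h1 h2 h3 h4 ih =>
    refine Unf.mk (T := graft l hl S R) (.inr a) t (fun i => .inr (e i))
      (fun i j hij => he (Sum.inr_injective hij)) (fun i => child_inr l hl (h1 i))
      (fun b hb => ?_) (fun i => ?_) (fun i => ih i (h1 i).1)
    · rcases child_of_inr l hl hb with ⟨c, hc, rfl⟩ | ⟨hc, -⟩
      · obtain ⟨i, rfl⟩ := h2 c hc
        exact ⟨i, rfl⟩
      · exact absurd hc ha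
    · show _ = gLabel l S R (.inr (e i))
      rw [gLabel_inr, h3 i]

theorem unf_graft {s r : KT} (hs : S.Unf S.root s) (hr : R.Unf R.root r) :
    (graft l hl S R).Unf (.inr R.root) (.cons l s r) := by
  cases hr with
  | mk _ _ e he h1 h2 h3 h4 =>
    have hlen : (KT.cons l s r).ch.length = r.ch.length + 1 := rfl
    refine Unf.mk (T := graft l hl S R) (.inr R.root) (.cons l s r)
      (fun i => Fin.cases (motive := fun _ => S.V ⊕ R.V) (.inl S.root) (fun i => .inr (e i))
        (Fin.cast hlen i)) ?_ ?_ ?_ ?_ ?_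
    · intro i j
      obtain ⟨i, hi⟩ := i
      obtain ⟨j, hj⟩ := j
      rcases i with _ | i <;> rcases j with _ | j
      · intro _; rfl
      · intro h; exact absurd h Sum.inl_ne_inr
      · intro h; exact absurd h Sum.inr_ne_inl
      · intro h
        have h5 := he (Sum.inr_injective h)
        have h6 := congrArg Fin.val h5
        exact Fin.ext (by simpa using h6)
    · intro i
      obtain ⟨i, hi⟩ := i
      rcases i with _ | i
      · exact child_new l hl
      · exact child_inr l hl (h1 ⟨i, _⟩)
    · intro b hb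
      rcases child_of_inr l hl hb with ⟨c, hc, rfl⟩ | ⟨-, rfl⟩
      · obtain ⟨i, rfl⟩ := h2 c hc
        exact ⟨⟨i.1 + 1, by rw [hlen]; omega⟩, rfl⟩
      · exact ⟨⟨0, by rw [hlen]; omega⟩, rfl⟩
    · intro i
      obtain ⟨i, hi⟩ := i
      rcases i with _ | i
      · show l = gLabel l S R (.inl S.root)
        rw [gLabel_inl_root]
      · show _ = gLabel l S R (.inr (e ⟨i, _⟩))
        rw [gLabel_inr]
        exact h3 ⟨i, _⟩
    · intro i
      obtain ⟨i, hi⟩ := i
      rcases i with _ | i
      · exact unf_inl l hl hs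
      · exact unf_inr l hl (h4 ⟨i, _⟩) (h1 ⟨i, _⟩).1

end graft

end LTree

/-- all labels are positive -/
def KT.Pos : KT → Prop
  | .nil => True
  | .cons l s r => 0 < l ∧ Pos s ∧ Pos r

theorem exists_tree : ∀ t : KT, t.Pos → ∃ T : LTree, T.Unf T.root t
  | .nil, _ => ⟨LTree.single, LTree.Unf.mk _ _ (fun i => absurd i.2 (by simp [KT.ch]))
      (fun i => absurd i.2 (by simp [KT.ch])) (fun i => absurd i.2 (by simp [KT.ch]))
      (fun b hb => absurd rfl hb.1) (fun i => absurd i.2 (by simp [KT.ch]))
      (fun i => absurd i.2 (by simp [KT.ch]))⟩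
  | .cons l s r, h => by
    obtain ⟨S, hS⟩ := exists_tree s h.2.1
    obtain ⟨R, hR⟩ := exists_tree r h.2.2
    exact ⟨LTree.graft l h.1 S R, LTree.unf_graft l h.1 hS hR⟩

theorem pos_app {t s : KT} (ht : t.Pos) (hs : s.Pos) : (t.app s).Pos := by
  induction t with
  | nil => exact hs
  | cons l a r _ ih => exact ⟨ht.1, ht.2.1, ih ht.2.2⟩

theorem pos_tr : ∀ (t : Tm) (b : Bool), (Tm.tr b t).Pos
  | .z, true => True.intro
  | .z, false => ⟨one_pos, True.intro, True.intro⟩
  | .c v p x, true => ⟨Nat.succ_pos v, pos_tr p false, Tm.lab_pos x, pos_tr x true, True.intro⟩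
  | .c _ _ _, false => ⟨one_pos, True.intro, True.intro⟩
  | .q _ _, true => True.intro
  | .q p x, false => ⟨Tm.lab_pos x, pos_tr x true, pos_app (pos_tr p false) (pos_tr p false)⟩

/-- **Main theorem.** -/
theorem main : ∃ g : {a : Ordinal.{0} // a < kappa} → LTree,
    ∀ a b, (g a).Le (g b) → a ≤ b := by
  have h1 : ∀ a : {a : Ordinal.{0} // a < kappa}, ∃ x, Tm.NF true x ∧ x.val = a.1 :=
    fun a => exists_code_kappa a.2
  choose x hx hxv using h1
  have h2 : ∀ a, ∃ T : LTree, T.Unf T.root (Tm.tr true (x a)) :=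
    fun a => exists_tree _ (pos_tr _ _)
  choose g hg using h2
  refine ⟨g, fun a b h => ?_⟩
  have h3 := LTree.emb_of_le h (hg a) (hg b)
  have h4 := top (hx a) (hx b) (by rw [hxv]; exact a.2.trans kappa_lt)
    (by rw [hxv]; exact b.2.trans kappa_lt) h3
  rw [hxv, hxv] at h4
  exact h4

end Kriz
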