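import Pool.Agent.Work.MP_0f6836_lc.Defs

/-!
# Basic facts on the collapsing functions
-/

namespace Kriz

open Ordinal

theorem C.zero {α ζ : Ordinal.{0}} : (0 : Ordinal.{0}) ∈ C α ζ := InC.zero

theorem C.base {α ζ ξ : Ordinal.{0}} (h : ξ < ζ) : ξ ∈ C α ζ := InC.base h

theorem C.add {α ζ a b : Ordinal.{0}} (ha : a ∈ C α ζ) (hb : b ∈ C α ζ) : a + b ∈ C α ζ :=
  InC.add ha hb

theorem C.mul {α ζ a : Ordinal.{0}} (ha : a ∈ C α ζ) : Lam * a ∈ C α ζ :=
  InC.mul ha

theorem C.coll {α ζ δ : Ordinal.{0}} (w : ℕ) (h : δ < α) (hδ : δ ∈ C α ζ) :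
    theta δ w ∈ C α ζ :=
  InC.coll (F := fun δ _ w => theta δ w) w h hδ

theorem C.induct {α ζ : Ordinal.{0}} {P : Ordinal.{0} → Prop} (zero : P 0)
    (base : ∀ ξ, ξ < ζ → P ξ) (add : ∀ a b, a ∈ C α ζ → b ∈ C α ζ → P a → P b → P (a + b))
    (mul : ∀ a, a ∈ C α ζ → P a → P (Lam * a))
    (coll : ∀ δ w, δ < α → δ ∈ C α ζ → P δ → P (theta δ w)) {ξ : Ordinal.{0}}
    (h : ξ ∈ C α ζ) : P ξ := by
  have h' : InC α ζ (fun δ _ w => theta δ w) ξ := h
  clear h
  induction h' with
  | zero => exact zero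
  | base h => exact base _ h
  | add ha hb iha ihb => exact add _ _ ha hb iha ihb
  | mul ha iha => exact mul _ ha iha
  | coll w h hδ ih => exact coll _ w h hδ ih

theorem C_mono {α β ζ η : Ordinal.{0}} (h : α ≤ β) (h' : ζ ≤ η) : C α ζ ⊆ C β η := by
  intro ξ hξ
  exact C.induct (P := fun ξ => ξ ∈ C β η) C.zero (fun ξ hξ => C.base (hξ.trans_le h'))
    (fun a b _ _ ha hb => C.add ha hb) (fun a _ ha => C.mul ha)
    (fun δ w hδ _ ih => C.coll w (hδ.trans_le h) ih) hξ

theorem Om_zero : Om 0 = 1 := by simp [Om]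

theorem Om_succ (v : ℕ) : Om (v + 1) = ω_ ((v + 1 : ℕ) : Ordinal.{0}) := by simp [Om]

theorem Om_pos (v : ℕ) : 0 < Om v := by
  unfold Om
  split_ifs with h
  · exact zero_lt_one
  · exact omega_pos _

theorem Om_lt_Om {v w : ℕ} (h : v < w) : Om v < Om w := by
  unfold Om
  split_ifs with h1 h2
  · omega
  · exact one_lt_omega0.trans_le (omega0_le_omega _)
  · omega
  · exact omega_lt_omega.2 (by exact_mod_cast h)

theorem Om_le_Om {v w : ℕ} (h : v ≤ w) : Om v ≤ Om w := by
  rcases h.lt_or_eq with h | h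
  · exact (Om_lt_Om h).le
  · rw [h]

theorem Om_lt_Lam (v : ℕ) : Om v < Lam := by
  unfold Om Lam
  split_ifs with h
  · exact one_lt_omega0.trans_le (omega0_le_omega _)
  · exact omega_lt_omega.2 (natCast_lt_omega0 v)

theorem Lam_pos : 0 < Lam := omega_pos _

theorem principal_omega (o : Ordinal.{0}) : IsPrincipal (· + ·) (ω_ o) :=
  (isInitial_omega o).isPrincipal_add (omega0_le_omega o)

theorem Lam_principal : IsPrincipal (· + ·) Lam := principal_omega _

theorem Om_principal (v : ℕ) : IsPrincipal (· + ·) (Om v) := by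
  unfold Om
  split_ifs with h
  · exact isPrincipal_add_one
  · exact principal_omega _

theorem theta_eq (α : Ordinal.{0}) (v : ℕ) :
    theta α v = sInf (cand v α (fun δ _ w => theta δ w)) := by
  rw [theta]

theorem theta_spec {v : ℕ} {α : Ordinal.{0}} (h : Valid v α) :
    Om v ≤ theta α v ∧ theta α v < Om (v + 1) ∧ α ∈ C α (theta α v) ∧
      ∀ ξ ∈ C α (theta α v), ξ < Om (v + 1) → ξ < theta α v := by
  have := csInf_mem h
  rw [← theta_eq] at this
  exact this

theorem theta_of_not_valid {v : ℕ} {α : Ordinal.{0}} (h : ¬ Valid v α) : theta α v = 0 := by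
  rw [theta_eq]
  have : cand v α (fun δ _ w => theta δ w) = ∅ := Set.not_nonempty_iff_eq_empty.1 h
  rw [this, Ordinal.sInf_empty]

theorem Om_le_theta {v : ℕ} {α : Ordinal.{0}} (h : Valid v α) : Om v ≤ theta α v :=
  (theta_spec h).1

theorem theta_lt_Om {v : ℕ} {α : Ordinal.{0}} : theta α v < Om (v + 1) := by
  by_cases h : Valid v α
  · exact (theta_spec h).2.1
  · rw [theta_of_not_valid h]; exact Om_pos _

theorem mem_C_theta {v : ℕ} {α : Ordinal.{0}} (h : Valid v α) : α ∈ C α (theta α v) :=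
  (theta_spec h).2.2.1

theorem lt_theta_of_mem {v : ℕ} {α ξ : Ordinal.{0}} (h : Valid v α) (hξ : ξ ∈ C α (theta α v))
    (hv : ξ < Om (v + 1)) : ξ < theta α v :=
  (theta_spec h).2.2.2 ξ hξ hv

theorem theta_pos {v : ℕ} {α : Ordinal.{0}} (h : Valid v α) : 0 < theta α v :=
  (Om_pos v).trans_le (Om_le_theta h)

theorem theta_principal {v : ℕ} {α : Ordinal.{0}} : IsPrincipal (· + ·) (theta α v) := by
  by_cases h : Valid v α
  · intro a b ha hb
    exact lt_theta_of_mem h (C.add (C.base ha) (C.base hb))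
      (Om_principal (v + 1) (ha.trans theta_lt_Om) (hb.trans theta_lt_Om))
  · rw [theta_of_not_valid h]; exact isPrincipal_zero

theorem theta_lt_Lam {v : ℕ} {α : Ordinal.{0}} : theta α v < Lam :=
  theta_lt_Om.trans (Om_lt_Lam _)

theorem theta_lt {v : ℕ} {α β : Ordinal.{0}} (hβ : Valid v β) (h : α < β)
    (hm : α ∈ C β (theta β v)) : theta α v < theta β v :=
  lt_theta_of_mem hβ (C.coll v h hm) theta_lt_Om

theorem theta_inj {v w : ℕ} {α β : Ordinal.{0}} (hα : Valid v α) (hβ : Valid w β)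
    (h : theta α v = theta β w) : v = w ∧ α = β := by
  have hvw : v = w := by
    by_contra hne
    rcases lt_or_gt_of_ne hne with hlt | hlt
    · have h1 : theta α v < Om (v + 1) := theta_lt_Om
      have h2 : Om (v + 1) ≤ Om w := Om_le_Om hlt
      have h3 := Om_le_theta hβ
      exact absurd h (h1.trans_le (h2.trans h3)).ne
    · have h1 : theta β w < Om (w + 1) := theta_lt_Om
      have h2 : Om (w + 1) ≤ Om v := Om_le_Om hlt
      have h3 := Om_le_theta hα
      exact absurd h (h1.trans_le (h2.trans h3)).ne'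
  subst hvw
  refine ⟨rfl, ?_⟩
  by_contra hne
  rcases lt_or_gt_of_ne hne with hlt | hlt
  · have h1 : α ∈ C β (theta β v) := C_mono hlt.le h.le (mem_C_theta hα)
    exact absurd h (theta_lt hβ hlt h1).ne
  · have h1 : β ∈ C α (theta α v) := C_mono hlt.le h.ge (mem_C_theta hβ)
    exact absurd h (theta_lt hα hlt h1).ne'

end Kriz
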