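import Pool.Agent.Work.MP_0f6836_lc.Ord1

/-!
# The structure of the closure `C(β, ζ)`
-/

namespace Kriz

open Ordinal

/-- `x` lies below every additively principal ordinal `> π` -/
def Below (π x : Ordinal.{0}) : Prop := ∀ ρ, IsPrincipal (· + ·) ρ → π < ρ → x < ρ

theorem Below.mono {π π' x : Ordinal.{0}} (h : Below π x) (h' : π ≤ π') : Below π' x :=
  fun ρ hρ hlt => h ρ hρ (h'.trans_lt hlt)

theorem Below.of_le {π x y : Ordinal.{0}} (h : Below π x) (h' : y ≤ x) : Below π y :=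
  fun ρ hρ hlt => h'.trans_lt (h ρ hρ hlt)

theorem below_self (π : Ordinal.{0}) : Below π π := fun _ _ h => h

theorem below_zero (π : Ordinal.{0}) : Below π 0 :=
  fun _ _ h => pos_of_gt h

theorem Below.add {π x y : Ordinal.{0}} (h : Below π x) (h' : Below π y) : Below π (x + y) :=
  fun ρ hρ hlt => hρ (h ρ hρ hlt) (h' ρ hρ hlt)

/-- the leading component -/
theorem exists_lead {b : Ordinal.{0}} (hb : b ≠ 0) :
    ∃ π x, IsPrincipal (· + ·) π ∧ 0 < π ∧ Below π x ∧ Below π b ∧ b = π + x ∧ x < b ∧ π ≤ b := by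
  have hb' : ω ^ log ω b ≤ b := opow_log_le_self ω hb
  have hB : Below (ω ^ log ω b) b := by
    intro ρ hρ hlt
    rcases isPrincipal_add_iff_zero_or_omega0_opow.1 hρ with h0 | ⟨e, he⟩
    · rw [h0] at hlt; exact absurd hlt (not_lt_of_ge zero_le)
    · have he : ω ^ e = ρ := he
      rw [← he] at hlt ⊢
      have h1 : log ω b < e := (opow_lt_opow_iff_right one_lt_omega0).1 hlt
      have h2 : b < ω ^ Order.succ (log ω b) := lt_opow_succ_log_self one_lt_omega0 b
      exact h2.trans_le ((opow_le_opow_iff_right one_lt_omega0).2 (Order.succ_le_of_lt h1))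
  refine ⟨ω ^ log ω b, b - ω ^ log ω b, isPrincipal_add_omega0_opow _,
    opow_pos _ omega0_pos, hB.of_le (sub_le_self _ _), hB,
    (Ordinal.add_sub_cancel_of_le hb').symm, ?_, hb'⟩
  exact (isLeast_sub_lt_omega0_opow_log hb).1

theorem lead_unique {π ρ x y : Ordinal.{0}} (hπ : IsPrincipal (· + ·) π)
    (hρ : IsPrincipal (· + ·) ρ) (hx : Below π x) (hy : Below ρ y) (h : π + x = ρ + y) :
    π = ρ ∧ x = y := by
  have key : ∀ {π ρ x y : Ordinal.{0}}, IsPrincipal (· + ·) ρ → Below π x → π + x = ρ + y →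
      ¬ π < ρ := by
    intro π ρ x y hρ hx h hlt
    have h1 : π + x < ρ := hρ hlt (hx ρ hρ hlt)
    exact absurd h (h1.trans_le le_self_add).ne
  have h1 : π = ρ := le_antisymm (not_lt.1 (key hπ hy h.symm)) (not_lt.1 (key hρ hx h))
  subst h1
  exact ⟨rfl, add_left_cancel h⟩

/-- the additively principal building blocks of `C(β, ζ)` -/
def Pset (β ζ : Ordinal.{0}) : Set Ordinal.{0} :=
  {π | IsPrincipal (· + ·) π ∧ 0 < π ∧ π < Lam ∧ π ∈ C β ζ ∧
    (π < ζ ∨ ∃ w δ, Valid w δ ∧ δ < β ∧ δ ∈ C β ζ ∧ π = theta δ w)}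

/-- finite sums of building blocks -/
inductive Bset (β ζ : Ordinal.{0}) : Ordinal.{0} → Prop
  | zero : Bset β ζ 0
  | cons {π b : Ordinal.{0}} : π ∈ Pset β ζ → Bset β ζ b → Bset β ζ (π + b)

/-- polynomials in `Λ` with coefficients in `Bset` -/
inductive Eset (β ζ : Ordinal.{0}) : Ordinal.{0} → Prop
  | zero : Eset β ζ 0
  | step {a b : Ordinal.{0}} : Eset β ζ a → Bset β ζ b → Eset β ζ (Lam * a + b)

variable {β ζ : Ordinal.{0}}

theorem Bset.lt_Lam {b : Ordinal.{0}} (h : Bset β ζ b) : b < Lam := by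
  induction h with
  | zero => exact Lam_pos
  | cons hπ _ ih => exact Lam_principal hπ.2.2.1 ih

theorem Bset.mem_C {b : Ordinal.{0}} (h : Bset β ζ b) : b ∈ C β ζ := by
  induction h with
  | zero => exact C.zero
  | cons hπ _ ih => exact C.add hπ.2.2.2.1 ih

theorem Eset.mem_C {b : Ordinal.{0}} (h : Eset β ζ b) : b ∈ C β ζ := by
  induction h with
  | zero => exact C.zero
  | step _ hb ih => exact C.add (C.mul ih) hb.mem_C

theorem Bset.add {a b : Ordinal.{0}} (ha : Bset β ζ a) (hb : Bset β ζ b) :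
    Bset β ζ (a + b) := by
  induction ha with
  | zero => rwa [zero_add]
  | cons hπ _ ih => rw [add_assoc]; exact Bset.cons hπ ih

theorem Bset.toE {b : Ordinal.{0}} (hb : Bset β ζ b) : Eset β ζ b := by
  have := Eset.step (β := β) (ζ := ζ) Eset.zero hb
  rwa [mul_zero, zero_add] at this

theorem add_Lam_mul {b a : Ordinal.{0}} (hb : b < Lam) (ha : a ≠ 0) :
    b + Lam * a = Lam * a := by
  refine Lam_principal.add_eq_right_of_le hb ?_
  exact le_mul_of_one_le_right' (Order.one_le_iff_pos.2 (pos_iff_ne_zero.2 ha))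

theorem Eset.add {a b : Ordinal.{0}} (ha : Eset β ζ a) (hb : Eset β ζ b) :
    Eset β ζ (a + b) := by
  induction hb generalizing a with
  | zero => rwa [add_zero]
  | @step a' b' ha' hb' ih =>
    cases ha with
    | zero => rw [zero_add]; exact Eset.step ha' hb'
    | @step c d hc hd =>
      by_cases h0 : a' = 0
      · subst h0
        rw [mul_zero, zero_add, add_assoc]
        exact Eset.step hc (hd.add hb')
      · rw [← add_assoc, add_assoc (Lam * c), add_Lam_mul hd.lt_Lam h0, ← mul_add]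
        exact Eset.step (ih hc) hb'

theorem Bset.of_lt (hζ : ζ ≤ Lam) {ξ : Ordinal.{0}} (h : ξ < ζ) : Bset β ζ ξ := by
  induction ξ using WellFoundedLT.induction with
  | ind ξ ih =>
    by_cases h0 : ξ = 0
    · rw [h0]; exact Bset.zero
    · obtain ⟨π, x, hπ, hπ0, hx, -, he, hlt, hle⟩ := exists_lead h0
      rw [he]
      refine Bset.cons ⟨hπ, hπ0, (hle.trans_lt h).trans_le hζ, C.base (hle.trans_lt h),
        Or.inl (hle.trans_lt h)⟩ (ih x hlt (hlt.trans h))

theorem mem_E (hζ : ζ ≤ Lam) {ξ : Ordinal.{0}} (h : ξ ∈ C β ζ) : Eset β ζ ξ := by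
  refine C.induct (P := fun ξ => Eset β ζ ξ) Eset.zero (fun ξ hξ => (Bset.of_lt hζ hξ).toE)
    (fun a b _ _ ha hb => ha.add hb) (fun a _ ha => ?_) (fun δ w hδ hm _ => ?_) h
  · have := Eset.step ha (Bset.zero (β := β) (ζ := ζ))
    rwa [add_zero] at this
  · by_cases hv : Valid w δ
    · have h1 : theta δ w ∈ Pset β ζ :=
        ⟨theta_principal, theta_pos hv, theta_lt_Lam, C.coll w hδ hm,
          Or.inr ⟨w, δ, hv, hδ, hm, rfl⟩⟩
      have := Bset.cons h1 Bset.zero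
      rw [add_zero] at this
      exact this.toE
    · rw [theta_of_not_valid hv]; exact Eset.zero

theorem Lam_digit_unique {a b a' b' : Ordinal.{0}} (hb : b < Lam) (hb' : b' < Lam)
    (h : Lam * a + b = Lam * a' + b') : a = a' ∧ b = b' := by
  have h1 : (Lam * a + b) / Lam = (Lam * a' + b') / Lam := by rw [h]
  rw [mul_add_div _ Lam_pos.ne', mul_add_div _ Lam_pos.ne', div_eq_zero_of_lt hb,
    div_eq_zero_of_lt hb', add_zero, add_zero] at h1
  subst h1
  exact ⟨rfl, add_left_cancel h⟩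

theorem S1 {a b : Ordinal.{0}} (hζ : ζ ≤ Lam) (hb : b < Lam) (h : Lam * a + b ∈ C β ζ) :
    a ∈ C β ζ ∧ b ∈ C β ζ := by
  have h1 := mem_E hζ h
  generalize hc : Lam * a + b = c at h1
  cases h1 with
  | zero =>
    have : Lam * a + b = Lam * 0 + 0 := by rw [hc, mul_zero, add_zero]
    obtain ⟨h2, h3⟩ := Lam_digit_unique hb Lam_pos this
    rw [h2, h3]; exact ⟨C.zero, C.zero⟩
  | @step a' b' ha' hb' =>
    obtain ⟨h2, h3⟩ := Lam_digit_unique hb hb'.lt_Lam hc
    rw [h2, h3]; exact ⟨ha'.mem_C, hb'.mem_C⟩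

theorem Bset_of_mem (hζ : ζ ≤ Lam) {b : Ordinal.{0}} (hb : b < Lam) (h : b ∈ C β ζ) :
    Bset β ζ b := by
  have h1 := mem_E hζ h
  generalize hc : b = c at h1
  cases h1 with
  | zero => exact Bset.zero
  | @step a' b' ha' hb' =>
    have : Lam * 0 + b = Lam * a' + b' := by rw [mul_zero, zero_add, hc]
    obtain ⟨h2, h3⟩ := Lam_digit_unique hb hb'.lt_Lam this
    rw [← h2, mul_zero, zero_add]
    exact hb'

theorem Bset_lead {b : Ordinal.{0}} (hb : Bset β ζ b) : ∀ π x, IsPrincipal (· + ·) π → 0 < π →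
    Below π x → b = π + x → π ∈ Pset β ζ ∧ Bset β ζ x := by
  induction hb with
  | zero =>
    intro π x _ h0 _ h
    have : π ≤ 0 := by rw [h]; exact le_self_add
    exact absurd h0 (not_lt_of_ge this)
  | @cons ρ b' hρ hb' ih =>
    intro π x hπ h0 hx h
    by_cases hb0 : b' = 0
    · subst hb0
      obtain ⟨h1, h2⟩ := lead_unique hρ.1 hπ (below_zero ρ) hx h
      rw [← h1, ← h2]; exact ⟨hρ, Bset.zero⟩
    · obtain ⟨π', x'', hπ', hπ0', hx'', hB, he, hlt, hle⟩ := exists_lead hb0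
      obtain ⟨h1, h2⟩ := ih π' x'' hπ' hπ0' hx'' he
      by_cases hc : ρ < π'
      · have h3 : ρ + b' = b' := hπ'.add_eq_right_of_le hc hle
        rw [h3, he] at h
        obtain ⟨h4, h5⟩ := lead_unique hπ' hπ hx'' hx h
        rw [← h4, ← h5]; exact ⟨h1, h2⟩
      · have h3 : Below ρ b' := hB.mono (not_lt.1 hc)
        obtain ⟨h4, h5⟩ := lead_unique hρ.1 hπ h3 hx h
        rw [← h4, ← h5]; exact ⟨hρ, hb'⟩

theorem S2 {π x : Ordinal.{0}} (hζ : ζ ≤ Lam) (hπ : IsPrincipal (· + ·) π) (hπ0 : 0 < π)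
    (hπL : π < Lam) (hx : Below π x) (h : π + x ∈ C β ζ) : π ∈ C β ζ ∧ x ∈ C β ζ := by
  have h1 : π + x < Lam := Lam_principal hπL (hx _ Lam_principal hπL)
  obtain ⟨h2, h3⟩ := Bset_lead (Bset_of_mem hζ h1 h) π x hπ hπ0 hx rfl
  exact ⟨h2.2.2.2.1, h3.mem_C⟩

theorem S3 {δ : Ordinal.{0}} {w : ℕ} (hζ : ζ ≤ Lam) (hv : Valid w δ) (h : theta δ w ∈ C β ζ)
    (h2 : ζ ≤ theta δ w) : δ ∈ C β ζ ∧ δ < β := by
  obtain ⟨h3, -⟩ := Bset_lead (Bset_of_mem hζ theta_lt_Lam h) (theta δ w) 0 theta_principal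
    (theta_pos hv) (below_zero _) (add_zero _).symm
  rcases h3.2.2.2.2 with h4 | ⟨w', δ', hv', hδ', hm, he⟩
  · exact absurd h4 (not_lt_of_ge h2)
  · obtain ⟨-, h5⟩ := theta_inj hv hv' he
    rw [h5]; exact ⟨hm, hδ'⟩

end Kriz
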