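import Pool.Agent.Work.MP_0f6836_lc.Tree

/-!
# Embeddings of the trees of terms reflect the order
-/

namespace Kriz

open Ordinal Tm

theorem Om_le_Lam (v : ℕ) : Om v ≤ Lam := (Om_lt_Lam v).le

theorem val_lt_Om_of_lab {x : Tm} (h : NF true x) {v : ℕ} (hl : lab x ≤ v + 1) :
    x.val < Om v := by
  refine val_lt h (Om_principal v) ?_
  cases x with
  | z => exact Om_pos _
  | c w p x =>
    simp only [lab] at hl
    exact theta_lt_Om.trans_le (Om_le_Om (by omega))
  | q _ _ => exact Om_pos _

theorem dig_mem_C {β ζ : Ordinal.{0}} (hζ : ζ ≤ Lam) : ∀ {r : Tm}, NF false r →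
    r.val ∈ C β ζ → ∀ x ∈ dig r, x.val ∈ C β ζ
  | z, _, _, x, hx => by
    simp only [dig, List.mem_singleton] at hx
    rw [hx]; exact C.zero
  | c _ _ _, h, _, _, _ => absurd h not_NF_false_c
  | q p y, h, hm, x, hx => by
    obtain ⟨h1, h2⟩ := S1 hζ (val_lt_Lam h.2.1) hm
    simp only [dig, List.mem_cons, List.mem_append, or_self] at hx
    rcases hx with rfl | hx
    · exact h2
    · exact dig_mem_C hζ h.1 h1 x hx

/-- the digit part of `L_aux` -/
theorem L_digit {v : ℕ} {Q : Ordinal.{0}} (hQ : Valid v Q) (K : KT → Prop)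
    (hKch : ∀ d, K d → ∀ m c, (m, c) ∈ d.ch → v + 1 ≤ m → K c) {x : Tm} (hx : NF true x)
    (ih : ∀ d, (∀ m c, (m, c) ∈ d.ch → v + 1 ≤ m → K c) → At (tr true x) d →
      x.val ∈ C Q (theta Q v))
    {T d : KT} (hT : (lab x, tr true x) ∈ T.ch)
    (hd : ∀ m c, (m, c) ∈ d.ch → v + 1 ≤ m → K c) (hAt : At T d) :
    x.val ∈ C Q (theta Q v) := by
  by_cases hl : v + 1 ≤ lab x
  · obtain ⟨m, b, h1, h2, h3⟩ := hAt.mem hT
    have hKb : K b := hd m b h1 (hl.trans h2)
    obtain ⟨d', h4, h5⟩ := emb_find (R := K) hKch (h3.mono hl) hKb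
    exact ih d' (fun m c hm hv => hKch d' h4 m c hm hv) h5
  · have h1 : x.val < Om v := val_lt_Om_of_lab hx (by omega)
    exact C.base (h1.trans_le (Om_le_theta hQ))

theorem L_aux {v : ℕ} {Q p0 ζ0 : Ordinal.{0}} (hQ : Valid v Q) (hp0 : p0 ≤ Q)
    (hζ0 : ζ0 ≤ Om (v + 1)) (N : ℕ) (K : KT → Prop)
    (hKch : ∀ d, K d → ∀ m c, (m, c) ∈ d.ch → v + 1 ≤ m → K c)
    (hK : ∀ c s, K c → NF false s → Valid v s.val → s.size < N → Emb (v + 1) (tr false s) c →
      theta s.val v < theta Q v) : ∀ (t : Tm), t.size ≤ N →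
    (NF true t → t.val ∈ C p0 ζ0 → ∀ d, (∀ m c, (m, c) ∈ d.ch → v + 1 ≤ m → K c) →
      At (tr true t) d → t.val ∈ C Q (theta Q v)) ∧
    (NF false t → t.val ∈ C p0 ζ0 → ∀ d, (∀ m c, (m, c) ∈ d.ch → v + 1 ≤ m → K c) →
      At (tr false t) d → t.val ∈ C Q (theta Q v)) := by
  have hζL : ζ0 ≤ Lam := hζ0.trans (Om_le_Lam _)
  intro t
  induction t with
  | z => intro _; exact ⟨fun _ _ _ _ _ => C.zero, fun _ _ _ _ _ => C.zero⟩
  | c w s x ihs ihx =>
    intro hsz
    simp only [size] at hsz
    refine ⟨fun h hm d hd hAt => ?_, fun h => absurd h not_NF_false_c⟩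
    obtain ⟨hs, hx, hv, hl⟩ := h
    have hB : Below (theta s.val w) x.val := (below_lead hx).mono hl
    obtain ⟨hm1, hm2⟩ := S2 hζL theta_principal (theta_pos hv) theta_lt_Lam hB hm
    have hmx : (lab x, tr true x) ∈ (tr true (c w s x)).ch := by
      rw [ch_tr_true_c]; simp
    have hms : (w + 1, tr false s) ∈ (tr true (c w s x)).ch := by
      rw [ch_tr_true_c]; simp
    have h1 : x.val ∈ C Q (theta Q v) :=
      L_digit hQ K hKch hx (fun d hd hAt => (ihx (by omega)).1 hx hm2 d hd hAt) hmx hd hAt
    have h2 : theta s.val w ∈ C Q (theta Q v) := by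
      rcases lt_trichotomy w v with hw | hw | hw
      · exact C.base (theta_lt_Om.trans_le ((Om_le_Om hw).trans (Om_le_theta hQ)))
      · subst hw
        obtain ⟨m, b, h3, h4, h5⟩ := hAt.mem hms
        exact C.base (hK b s (hd m b h3 h4) hs hv (by omega) h5)
      · obtain ⟨m, b, h3, h4, h5⟩ := hAt.mem hms
        have h6 : ζ0 ≤ theta s.val w := hζ0.trans ((Om_le_Om hw).trans (Om_le_theta hv))
        obtain ⟨h7, h8⟩ := S3 hζL hv hm1 h6
        have hKb : K b := hd m b h3 (by omega)
        obtain ⟨d', h9, h10⟩ := emb_find (R := K) hKch (h5.mono (by omega)) hKb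
        have h11 := (ihs (by omega)).2 hs h7 d' (fun m c hm hv => hKch d' h9 m c hm hv) h10
        exact C.coll w (h8.trans_le hp0) h11
    exact C.add h2 h1
  | q p x ihp ihx =>
    intro hsz
    simp only [size] at hsz
    refine ⟨fun h => absurd h not_NF_true_q, fun h hm d hd hAt => ?_⟩
    obtain ⟨hp, hx, -⟩ := h
    obtain ⟨hm1, hm2⟩ := S1 hζL (val_lt_Lam hx) hm
    have hmx : (lab x, tr true x) ∈ (tr false (q p x)).ch := by
      simp [tr, KT.ch]
    have h1 : x.val ∈ C Q (theta Q v) :=
      L_digit hQ K hKch hx (fun d hd hAt => (ihx (by omega)).1 hx hm2 d hd hAt) hmx hd hAt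
    have hAt' : At (tr false p) d := by
      have hch : (tr false (q p x)).ch = (lab x, tr true x) :: ((tr false p).ch ++ (tr false p).ch) := by
        simp only [tr, KT.ch, ch_app]
      have hlen : (tr false p).ch.length + 1 ≤ (tr false (q p x)).ch.length := by
        rw [hch]; simp
      refine hAt.of_injection (fun i => ⟨i.1 + 1, by omega⟩) ?_ ?_
      · intro i j hij
        have := congrArg Fin.val hij
        exact Fin.ext (by simpa using this)
      · intro i
        simp only [List.get_eq_getElem, hch, List.getElem_cons_succ]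
        rw [List.getElem_append_left]
    exact C.add (C.mul ((ihp (by omega)).2 hp hm1 d hd hAt')) h1

/-- the simultaneous induction hypothesis -/
structure Hyp (n : ℕ) : Prop where
  A : ∀ x y, NF true x → NF true y → x.size + y.size < n → lab x ≤ lab y →
    Emb (lab x) (tr true x) (tr true y) → x.val ≤ y.val
  B : ∀ v p r, NF false p → NF false r → Valid v p.val → Valid v r.val →
    p.size + r.size < n → Emb (v + 1) (tr false p) (tr false r) →
    theta p.val v ≤ theta r.val v
  C' : ∀ p r, NF false p → NF false r → p.size + r.size < n →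
    At (tr false p) (tr false r) → p.val ≤ r.val
  GX : ∀ v Q p y, Valid v Q → Q ≠ 0 → NF false p → Valid v p.val → NF true y →
    y.val ∈ C Q (theta Q v) → p.size + y.size < n → Emb (v + 1) (tr false p) (tr true y) →
    theta p.val v < theta Q v
  GP : ∀ v Q p r, Valid v Q → NF false p → Valid v p.val → NF false r →
    r.val ∈ C Q (theta Q v) → r.val < Q → p.size + r.size < n →
    Emb (v + 1) (tr false p) (tr false r) → theta p.val v < theta Q v
  D : ∀ v p y, NF false p → p ≠ z → Valid v p.val → NF true y → p.size + y.size < n →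
    Emb (v + 1) (tr false p) (tr true y) → theta p.val v ≤ lead y

theorem theta_le_Lam {v : ℕ} {α : Ordinal.{0}} : theta α v ≤ Lam := theta_lt_Lam.le

theorem step_C {n : ℕ} (H : Hyp n) (p r : Tm) (hp : NF false p) (hr : NF false r)
    (hs : p.size + r.size < n + 1) (h : At (tr false p) (tr false r)) : p.val ≤ r.val := by
  have h' := h.toL
  rw [ch_tr_false hp, ch_tr_false hr] at h'
  refine lex hp hr fun θ hθ => ?_
  classical
  rw [← countP_dig hθ hp, ← countP_dig hθ hr]
  refine h'.countP_map (fun x => θ ≤ x.val) ?_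
  intro x hx y hy hθx h1 h2
  have hxn := NF_dig hp x hx
  have hyn := NF_dig hr y hy
  rcases size_dig hp x hx with rfl | h3
  · exact absurd hθx (not_le_of_gt hθ)
  · have h4 : y.size ≤ r.size := by
      rcases size_dig hr y hy with rfl | h5
      · simp [size]
      · exact h5.le
    exact hθx.trans (H.A x y hxn hyn (by omega) h1 h2)

theorem not_at_sum {p : Tm} (hp : NF false p) (hz : p ≠ z) {w : ℕ} {r y : Tm} :
    ¬ At (tr false p) (tr true (c w r y)) := by
  intro h
  have h1 := h.length_le
  rw [ch_tr_false hp, ch_tr_true_c, List.length_map] at h1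
  have h2 := length_dig hp hz
  simp at h1
  omega

theorem step_GX {n : ℕ} (H : Hyp n) (v : ℕ) (Q : Ordinal.{0}) (p y : Tm) (hQ : Valid v Q)
    (hQ0 : Q ≠ 0) (hp : NF false p) (hpv : Valid v p.val) (hy : NF true y)
    (hym : y.val ∈ C Q (theta Q v)) (hs : p.size + y.size < n + 1)
    (h : Emb (v + 1) (tr false p) (tr true y)) : theta p.val v < theta Q v := by
  cases y with
  | z => exact absurd h (not_emb_nil (ch_tr_false_ne_nil hp))
  | q _ _ => exact absurd hy not_NF_true_q
  | c w r y =>
    simp only [size] at hs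
    obtain ⟨hr, hy', hv, hl⟩ := hy
    have hB : Below (theta r.val w) y.val := (below_lead hy').mono hl
    obtain ⟨hm1, hm2⟩ := S2 theta_le_Lam theta_principal (theta_pos hv) theta_lt_Lam hB hym
    rcases emb_iff.1 h with h | ⟨m, c', h1, h2, h3⟩
    · by_cases hz : p = z
      · subst hz
        exact theta_lt hQ (pos_iff_ne_zero.2 hQ0) C.zero
      · exact absurd h (not_at_sum hp hz)
    · rw [ch_tr_true_c] at h1
      simp only [List.mem_cons, Prod.mk.injEq, List.not_mem_nil, or_false] at h1
      rcases h1 with ⟨rfl, rfl⟩ | ⟨rfl, rfl⟩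
      · rcases (show v ≤ w by omega).lt_or_eq with hlt | rfl
        · have h4 : theta Q v ≤ theta r.val w :=
            (theta_lt_Om.trans_le ((Om_le_Om hlt).trans (Om_le_theta hv))).le
          obtain ⟨h5, h6⟩ := S3 theta_le_Lam hv hm1 h4
          exact H.GP v Q p r hQ hp hpv hr h5 h6 (by omega) h3
        · exact (H.B v p r hp hr hpv hv (by omega) h3).trans_lt
            (lt_theta_of_mem hQ hm1 theta_lt_Om)
      · exact H.GX v Q p y hQ hQ0 hp hpv hy' hm2 (by omega) h3

theorem mem_ch_false {r : Tm} (hr : NF false r) {m : ℕ} {c' : KT}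
    (h : (m, c') ∈ (tr false r).ch) : ∃ x ∈ dig r, m = lab x ∧ c' = tr true x := by
  rw [ch_tr_false hr] at h
  obtain ⟨x, hx, he⟩ := List.mem_map.1 h
  unfold Br at he
  exact ⟨x, hx, (congrArg Prod.fst he).symm, (congrArg Prod.snd he).symm⟩

theorem step_GP {n : ℕ} (H : Hyp n) (v : ℕ) (Q : Ordinal.{0}) (p r : Tm) (hQ : Valid v Q)
    (hp : NF false p) (hpv : Valid v p.val) (hr : NF false r) (hrm : r.val ∈ C Q (theta Q v))
    (hrQ : r.val < Q) (hs : p.size + r.size < n + 1)
    (h : Emb (v + 1) (tr false p) (tr false r)) : theta p.val v < theta Q v := by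
  rcases emb_iff.1 h with h | ⟨m, c', h1, h2, h3⟩
  · have h1 : p.val ≤ r.val := step_C H p r hp hr hs h
    have h2 : p.val < Q := h1.trans_lt hrQ
    let K : KT → Prop := fun c => ∀ s, NF false s → Valid v s.val → s.size < p.size →
      Emb (v + 1) (tr false s) c → theta s.val v < theta Q v
    have h3 := L_aux (p0 := p.val) (ζ0 := theta p.val v) hQ h2.le theta_lt_Om.le p.size K
      (fun d hd m c hm hv s a1 a2 a3 a4 => hd s a1 a2 a3 (Emb.of_child hm hv a4))
      (fun c s hc a1 a2 a3 a4 => hc s a1 a2 a3 a4) p le_rfl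
    have h4 := h3.2 hp (mem_C_theta hpv) (tr false r)
      (fun m c hm hv s a1 a2 a3 a4 => H.GP v Q s r hQ a1 a2 hr hrm hrQ (by omega)
        (Emb.of_child hm hv a4)) h
    exact theta_lt hQ h2 h4
  · obtain ⟨x, hx, rfl, rfl⟩ := mem_ch_false hr h1
    have hxm := dig_mem_C theta_le_Lam hr hrm x hx
    rcases size_dig hr x hx with rfl | h4
    · exact absurd h3 (not_emb_nil (ch_tr_false_ne_nil hp))
    · exact H.GX v Q p x hQ (pos_of_gt hrQ).ne' hp hpv (NF_dig hr x hx) hxm (by omega) h3

theorem step_B {n : ℕ} (H : Hyp n) (v : ℕ) (p r : Tm) (hp : NF false p) (hr : NF false r)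
    (hpv : Valid v p.val) (hrv : Valid v r.val) (hs : p.size + r.size < n + 1)
    (h : Emb (v + 1) (tr false p) (tr false r)) : theta p.val v ≤ theta r.val v := by
  rcases emb_iff.1 h with h | ⟨m, c', h1, h2, h3⟩
  · have h1 : p.val ≤ r.val := step_C H p r hp hr hs h
    rcases h1.lt_or_eq with h2 | h2
    · let K : KT → Prop := fun c => ∀ s, NF false s → Valid v s.val → s.size < p.size →
        Emb (v + 1) (tr false s) c → theta s.val v < theta r.val v
      have h3 := L_aux (p0 := p.val) (ζ0 := theta p.val v) hrv h1 theta_lt_Om.le p.size K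
        (fun d hd m c hm hv s a1 a2 a3 a4 => hd s a1 a2 a3 (Emb.of_child hm hv a4))
        (fun c s hc a1 a2 a3 a4 => hc s a1 a2 a3 a4) p le_rfl
      have h4 := h3.2 hp (mem_C_theta hpv) (tr false r) (by
        intro m c' hm hv s a1 a2 a3 a4
        obtain ⟨x, hx, rfl, rfl⟩ := mem_ch_false hr hm
        have hxm := dig_mem_C theta_le_Lam hr (mem_C_theta hrv) x hx
        have hxs : x.size ≤ r.size := by
          rcases size_dig hr x hx with rfl | h5
          · simp [size]
          · exact h5.le
        exact H.GX v r.val s x hrv (pos_of_gt h2).ne' a1 a2 (NF_dig hr x hx) hxm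
          (by omega) a4) h
      exact (theta_lt hrv h2 h4).le
    · rw [h2]
  · obtain ⟨x, hx, rfl, rfl⟩ := mem_ch_false hr h1
    have hxm := dig_mem_C theta_le_Lam hr (mem_C_theta hrv) x hx
    rcases size_dig hr x hx with rfl | h4
    · exact absurd h3 (not_emb_nil (ch_tr_false_ne_nil hp))
    · have hrz : r ≠ z := by
        rintro rfl
        simp only [size] at h4
        omega
      exact (H.GX v r.val p x hrv (val_ne_zero hr hrz) hp hpv (NF_dig hr x hx) hxm
        (by omega) h3).le

theorem step_D {n : ℕ} (H : Hyp n) (v : ℕ) (p y : Tm) (hp : NF false p) (hz : p ≠ z)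
    (hpv : Valid v p.val) (hy : NF true y) (hs : p.size + y.size < n + 1)
    (h : Emb (v + 1) (tr false p) (tr true y)) : theta p.val v ≤ lead y := by
  cases y with
  | z => exact absurd h (not_emb_nil (ch_tr_false_ne_nil hp))
  | q _ _ => exact absurd hy not_NF_true_q
  | c w r y =>
    simp only [size] at hs
    obtain ⟨hr, hy', hv, hl⟩ := hy
    rcases emb_iff.1 h with h | ⟨m, c', h1, h2, h3⟩
    · exact absurd h (not_at_sum hp hz)
    · rw [ch_tr_true_c] at h1
      simp only [List.mem_cons, Prod.mk.injEq, List.not_mem_nil, or_false] at h1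
      rcases h1 with ⟨rfl, rfl⟩ | ⟨rfl, rfl⟩
      · rcases (show v ≤ w by omega).lt_or_eq with hlt | rfl
        · exact (theta_lt_Om.trans_le ((Om_le_Om hlt).trans (Om_le_theta hv))).le
        · exact H.B v p r hp hr hpv hv (by omega) h3
      · exact (H.D v p y hp hz hpv hy' (by omega) h3).trans hl

theorem at_sum {n : ℕ} (H : Hyp n) {v u : ℕ} {p x r y : Tm} (hx : NF true (c v p x))
    (hy : NF true (c u r y)) (hs : (c v p x).size + (c u r y).size < n + 1) (hvu : v ≤ u)
    (h : At (tr true (c v p x)) (tr true (c u r y))) : (c v p x).val ≤ (c u r y).val := by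
  simp only [size] at hs
  obtain ⟨hp, hx', hpv, hpl⟩ := hx
  obtain ⟨hr, hy', hrv, hrl⟩ := hy
  rw [val_c, val_c]
  have hlt : v < u → theta p.val v < Om u := fun h => theta_lt_Om.trans_le (Om_le_Om h)
  rcases At.two (ch_tr_true_c v p x) (ch_tr_true_c u r y) h with
    ⟨⟨h1, h2⟩, ⟨h3, h4⟩⟩ | ⟨⟨h1, h2⟩, ⟨h3, h4⟩⟩
  · refine add_le_add ?_ (H.A x y hx' hy' (by omega) h3 h4)
    rcases hvu.lt_or_eq with hlt' | rfl
    · exact ((hlt hlt').trans_le (Om_le_theta hrv)).le
    · exact H.B v p r hp hr hpv hrv (by omega) h2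
  · have hxO : x.val < Om u := val_lt_Om_of_lab hx' h3
    rcases hvu.lt_or_eq with hlt' | rfl
    · exact (Om_principal u (hlt hlt') hxO).le.trans ((Om_le_theta hrv).trans le_self_add)
    · by_cases hz : p = z
      · subst hz
        by_cases hrz : r = z
        · subst hrz
          have hxz : x = z := by
            cases x with
            | z => rfl
            | q _ _ => exact absurd hx' not_NF_true_q
            | c w s x =>
              exfalso
              have hne : (tr true (c w s x)).ch ≠ [] := by rw [ch_tr_true_c]; simp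
              rcases emb_iff.1 h4 with h5 | ⟨m, c', h5, -, h6⟩
              · have := h5.length_le
                rw [ch_tr_true_c] at this
                simp [tr, KT.ch] at this
              · simp only [tr, KT.ch, List.mem_singleton, Prod.mk.injEq] at h5
                rw [h5.2] at h6
                exact not_emb_nil hne h6
          rw [hxz]
          simp only [val, add_zero]
          exact le_self_add
        · have h5 : theta z.val v < theta r.val v :=
            theta_lt hrv (pos_iff_ne_zero.2 (val_ne_zero hr hrz)) C.zero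
          exact (theta_principal h5 (hxO.trans_le (Om_le_theta hrv))).le.trans le_self_add
      · have h5 := H.D v p y hp hz hpv hy' (by omega) h2
        refine add_le_add (h5.trans hrl) ?_
        exact (hxO.le.trans (Om_le_theta hpv)).trans (h5.trans (lead_le_val y))

theorem step_A {n : ℕ} (H : Hyp n) (x y : Tm) (hx : NF true x) (hy : NF true y)
    (hs : x.size + y.size < n + 1) (hl : lab x ≤ lab y)
    (h : Emb (lab x) (tr true x) (tr true y)) : x.val ≤ y.val := by
  cases x with
  | z => exact zero_le
  | q _ _ => exact absurd hx not_NF_true_q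
  | c v p x =>
    cases y with
    | z => simp [lab] at hl
    | q _ _ => exact absurd hy not_NF_true_q
    | c u r y =>
      have hvu : v ≤ u := by simpa [lab] using hl
      rcases emb_iff.1 h with h | ⟨m, c', h1, h2, h3⟩
      · exact at_sum H hx hy hs hvu h
      · simp only [size] at hs
        rw [ch_tr_true_c] at h1
        simp only [List.mem_cons, Prod.mk.injEq, List.not_mem_nil, or_false] at h1
        rcases h1 with ⟨rfl, rfl⟩ | ⟨rfl, rfl⟩
        · simp only [lab] at h2
          have h4 : (c v p x).val < Om u := by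
            refine val_lt hx (Om_principal u) ?_
            exact theta_lt_Om.trans_le (Om_le_Om (by omega))
          exact h4.le.trans ((Om_le_theta hy.2.2.1).trans le_self_add)
        · have h4 := H.A (c v p x) y hx hy.2.1 (by simp only [size]; omega) h2 h3
          exact h4.trans le_add_self

theorem hyp (n : ℕ) : Hyp n := by
  induction n with
  | zero =>
    refine ⟨?_, ?_, ?_, ?_, ?_, ?_⟩ <;> intros <;> omega
  | succ n ih =>
    exact ⟨fun x y hx hy hs hl h => step_A ih x y hx hy hs hl h,
      fun v p r hp hr hpv hrv hs h => step_B ih v p r hp hr hpv hrv hs h,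
      fun p r hp hr hs h => step_C ih p r hp hr hs h,
      fun v Q p y hQ hQ0 hp hpv hy hym hs h => step_GX ih v Q p y hQ hQ0 hp hpv hy hym hs h,
      fun v Q p r hQ hp hpv hr hrm hrQ hs h => step_GP ih v Q p r hQ hp hpv hr hrm hrQ hs h,
      fun v p y hp hz hpv hy hs h => step_D ih v p y hp hz hpv hy hs h⟩

/-- the top claim: embeddings between the trees of sum terms with values below `Ω_1` reflect the
order -/
theorem top {x y : Tm} (hx : NF true x) (hy : NF true y) (hx1 : x.val < Om 1)
    (hy1 : y.val < Om 1) (h : Emb 1 (tr true x) (tr true y)) : x.val ≤ y.val := by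
  cases x with
  | z => exact zero_le
  | q _ _ => exact absurd hx not_NF_true_q
  | c v p x =>
    have hv0 : v = 0 := by
      by_contra hne
      have h1 : Om 1 ≤ theta p.val v := (Om_le_Om (by omega)).trans (Om_le_theta hx.2.2.1)
      exact absurd hx1 (not_lt_of_ge (h1.trans le_self_add))
    subst hv0
    induction y with
    | z => exact absurd h (not_emb_nil (by rw [ch_tr_true_c]; simp))
    | q _ _ _ _ => exact absurd hy not_NF_true_q
    | c u r y _ ihy =>
      rcases emb_iff.1 h with h | ⟨m, c', h1, h2, h3⟩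
      · exact at_sum (hyp _) hx hy (Nat.lt_succ_self _) (Nat.zero_le _) h
      · have hu0 : u = 0 := by
          by_contra hne
          have h1 : Om 1 ≤ theta r.val u := (Om_le_Om (by omega)).trans (Om_le_theta hy.2.2.1)
          exact absurd hy1 (not_lt_of_ge (h1.trans le_self_add))
        subst hu0
        rw [ch_tr_true_c] at h1
        simp only [List.mem_cons, Prod.mk.injEq, List.not_mem_nil, or_false] at h1
        rcases h1 with ⟨rfl, rfl⟩ | ⟨rfl, rfl⟩
        · obtain ⟨hr, hy', hrv, hrl⟩ := hy
          let K : KT → Prop := fun c => ∀ s, NF false s → Valid 0 s.val →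
            Emb (0 + 1) (tr false s) c → theta s.val 0 < theta r.val 0
          have hKch : ∀ d, K d → ∀ m c, (m, c) ∈ d.ch → 0 + 1 ≤ m → K c :=
            fun d hd m c hm hv s a1 a2 a3 => hd s a1 a2 (Emb.of_child hm hv a3)
          have hR0 : ∀ m c, (m, c) ∈ (tr false r).ch → 0 + 1 ≤ m → K c := by
            intro m c' hm hv s a1 a2 a3
            obtain ⟨x', hx', rfl, rfl⟩ := mem_ch_false hr hm
            have hxm := dig_mem_C theta_le_Lam hr (mem_C_theta hrv) x' hx'
            rcases size_dig hr x' hx' with rfl | h4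
            · exact absurd a3 (not_emb_nil (ch_tr_false_ne_nil a1))
            · have hrz : r ≠ z := by
                rintro rfl
                simp only [size] at h4
                omega
              exact (hyp _).GX 0 r.val s x' hrv (val_ne_zero hr hrz) a1 a2 (NF_dig hr x' hx')
                hxm (Nat.lt_succ_self _) a3
          obtain ⟨d, hd, hAt⟩ := emb_find
            (R := fun d => ∀ m c, (m, c) ∈ d.ch → 0 + 1 ≤ m → K c)
            (fun d hd m c hm hv => hKch c (hd m c hm hv)) h3 hR0
          have h4 := L_aux (p0 := 0) (ζ0 := Om 1) hrv zero_le le_rfl (c 0 p x).size K hKch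
            (fun c s hc a1 a2 _ a4 => hc s a1 a2 a4) (c 0 p x) le_rfl
          have h5 := h4.1 hx (C.base hx1) d hd hAt
          exact (lt_theta_of_mem hrv h5 hx1).le.trans le_self_add
        · exact (ihy hy.2.1 (lt_of_le_of_lt le_add_self hy1) h3).trans le_add_self

end Kriz
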