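import Pool.Agent.Work.MP_0f6836_lc.Trm

/-!
# Embeddings of trees
-/

namespace Kriz

open Ordinal

theorem Emb.of_at {l : ℕ} {t s : KT} (h : At t s) : Emb l t s := by
  obtain ⟨σ, h1, h2, h3⟩ := h
  exact Emb.here σ h1 h2 h3

theorem emb_iff {l : ℕ} {t s : KT} :
    Emb l t s ↔ At t s ∨ ∃ m c, (m, c) ∈ s.ch ∧ l ≤ m ∧ Emb l t c := by
  constructor
  · intro h
    cases h with
    | here σ h1 h2 h3 => exact Or.inl ⟨σ, h1, h2, h3⟩
    | down j h h' => exact Or.inr ⟨_, _, List.get_mem s.ch j, h, h'⟩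
  · rintro (h | ⟨m, c, h1, h2, h3⟩)
    · exact Emb.of_at h
    · obtain ⟨j, hj⟩ := List.mem_iff_get.1 h1
      exact Emb.down j (by rw [hj]; exact h2) (by rw [hj]; exact h3)

theorem Emb.of_child {l m : ℕ} {t s c : KT} (h1 : (m, c) ∈ s.ch) (h2 : l ≤ m)
    (h3 : Emb l t c) : Emb l t s := emb_iff.2 (Or.inr ⟨m, c, h1, h2, h3⟩)

theorem Emb.mono {l l' : ℕ} {t s : KT} (h : Emb l t s) (hl : l' ≤ l) : Emb l' t s := by
  induction h with
  | here σ h1 h2 h3 _ => exact Emb.here σ h1 h2 h3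
  | down j h _ ih => exact Emb.down j (hl.trans h) (ih hl)

theorem emb_find {R : KT → Prop} {l : ℕ} {t s : KT}
    (hR : ∀ d, R d → ∀ m c, (m, c) ∈ d.ch → l ≤ m → R c) (h : Emb l t s) (hs : R s) :
    ∃ d, R d ∧ At t d := by
  induction h with
  | here σ h1 h2 h3 _ => exact ⟨_, hs, σ, h1, h2, h3⟩
  | @down l t s j h _ ih => exact ih hR (hR _ hs _ _ (List.get_mem s.ch j) h)

theorem At.length_le {t s : KT} (h : At t s) : t.ch.length ≤ s.ch.length := by
  obtain ⟨σ, h1, -⟩ := h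
  simpa using Fintype.card_le_of_injective σ h1

theorem At.mem {t s : KT} (h : At t s) {l : ℕ} {a : KT} (hm : (l, a) ∈ t.ch) :
    ∃ m b, (m, b) ∈ s.ch ∧ l ≤ m ∧ Emb l a b := by
  obtain ⟨σ, h1, h2, h3⟩ := h
  obtain ⟨i, hi⟩ := List.mem_iff_get.1 hm
  refine ⟨_, _, List.get_mem s.ch (σ i), ?_, ?_⟩
  · have := h2 i; rw [hi] at this; exact this
  · have := h3 i; rw [hi] at this; exact this

/-- restriction of the children on the left side -/
theorem At.of_injection {t t' s : KT} (h : At t s) (τ : Fin t'.ch.length → Fin t.ch.length)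
    (hτ : Function.Injective τ) (he : ∀ i, t'.ch.get i = t.ch.get (τ i)) : At t' s := by
  obtain ⟨σ, h1, h2, h3⟩ := h
  refine ⟨σ ∘ τ, h1.comp hτ, fun i => ?_, fun i => ?_⟩
  · rw [he i]; exact h2 _
  · rw [he i]; exact h3 _

/-- `At` in terms of the lists of children -/
def AtL (L M : List (ℕ × KT)) : Prop :=
  ∃ σ : Fin L.length → Fin M.length, Function.Injective σ ∧
    (∀ i, (L.get i).1 ≤ (M.get (σ i)).1) ∧ ∀ i, Emb (L.get i).1 (L.get i).2 (M.get (σ i)).2

theorem At.toL {t s : KT} (h : At t s) : AtL t.ch s.ch := h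

theorem AtL.two {l₁ l₂ m₁ m₂ : ℕ} {a₁ a₂ b₁ b₂ : KT}
    (h : AtL [(l₁, a₁), (l₂, a₂)] [(m₁, b₁), (m₂, b₂)]) :
    ((l₁ ≤ m₁ ∧ Emb l₁ a₁ b₁) ∧ (l₂ ≤ m₂ ∧ Emb l₂ a₂ b₂)) ∨
      ((l₁ ≤ m₂ ∧ Emb l₁ a₁ b₂) ∧ (l₂ ≤ m₁ ∧ Emb l₂ a₂ b₁)) := by
  obtain ⟨σ, h1, h2, h3⟩ := h
  have h20 := h2 ⟨0, by simp⟩
  have h21 := h2 ⟨1, by simp⟩
  have h30 := h3 ⟨0, by simp⟩
  have h31 := h3 ⟨1, by simp⟩
  have hne : σ ⟨0, by simp⟩ ≠ σ ⟨1, by simp⟩ := by
    intro he
    have := h1 he
    simp at this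
  generalize σ ⟨0, by simp⟩ = i at h20 h30 hne
  generalize σ ⟨1, by simp⟩ = j at h21 h31 hne
  obtain ⟨i, hi⟩ := i
  obtain ⟨j, hj⟩ := j
  have hi' : i < 2 := hi
  have hj' : j < 2 := hj
  have hne' : i ≠ j := fun h => hne (by simp [h])
  interval_cases i
  · have : j = 1 := by omega
    subst this
    exact Or.inl ⟨⟨h20, h30⟩, ⟨h21, h31⟩⟩
  · have : j = 0 := by omega
    subst this
    exact Or.inr ⟨⟨h20, h30⟩, ⟨h21, h31⟩⟩

theorem At.two {t s : KT} {l₁ l₂ m₁ m₂ : ℕ} {a₁ a₂ b₁ b₂ : KT}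
    (ht : t.ch = [(l₁, a₁), (l₂, a₂)]) (hs : s.ch = [(m₁, b₁), (m₂, b₂)]) (h : At t s) :
    ((l₁ ≤ m₁ ∧ Emb l₁ a₁ b₁) ∧ (l₂ ≤ m₂ ∧ Emb l₂ a₂ b₂)) ∨
      ((l₁ ≤ m₂ ∧ Emb l₁ a₁ b₂) ∧ (l₂ ≤ m₁ ∧ Emb l₂ a₂ b₁)) := by
  have h' := h.toL
  rw [ht, hs] at h'
  exact h'.two

theorem AtL.nil {M : List (ℕ × KT)} {L : List (ℕ × KT)} (h : AtL L M) (hM : M = []) :
    L = [] := by
  obtain ⟨σ, -⟩ := h
  subst hM
  by_contra hne
  have : 0 < L.length := List.length_pos_iff.2 hne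
  exact Fin.elim0 (σ ⟨0, this⟩)

/-- nothing with a child embeds into the one-point tree -/
theorem not_emb_nil {l : ℕ} {t : KT} (ht : t.ch ≠ []) : ¬ Emb l t .nil := by
  intro h
  rcases emb_iff.1 h with h | ⟨m, c, h, -⟩
  · exact ht (h.toL.nil rfl)
  · simp [KT.ch] at h

theorem ch_app : ∀ t s : KT, (t.app s).ch = t.ch ++ s.ch
  | .nil, _ => rfl
  | .cons l a r, s => by
    rw [KT.app, KT.ch, KT.ch, ch_app r s, List.cons_append]

theorem countP_eq_card {α : Type*} (P : α → Prop) [DecidablePred P] : ∀ L : List α,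
    L.countP (fun x => decide (P x)) =
      (Finset.univ.filter (fun i : Fin L.length => P (L.get i))).card
  | [] => by simp
  | x :: L => by
    have ih := countP_eq_card P L
    rw [List.countP_cons, ih]
    rw [Finset.card_filter, Finset.card_filter]
    simp only [List.length_cons, Fin.sum_univ_succ, List.get_cons_zero]
    by_cases h : P x
    · simp [h]; omega
    · simp [h]

/-- counting children -/
theorem AtL.countP_map {α : Type*} {L M : List α} {f : α → ℕ × KT}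
    (h : AtL (L.map f) (M.map f)) (P : α → Prop) [DecidablePred P]
    (hP : ∀ x ∈ L, ∀ y ∈ M, P x → (f x).1 ≤ (f y).1 → Emb (f x).1 (f x).2 (f y).2 → P y) :
    L.countP (fun x => decide (P x)) ≤ M.countP (fun x => decide (P x)) := by
  obtain ⟨σ, h1, h2, h3⟩ := h
  rw [countP_eq_card, countP_eq_card]
  have eL : L.length = (L.map f).length := by simp
  have eM : (M.map f).length = M.length := by simp
  refine Finset.card_le_card_of_injOn (fun i => Fin.cast eM (σ (Fin.cast eL i))) ?_ ?_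
  · intro i hi
    simp only [Finset.coe_filter, Finset.mem_univ, true_and, Set.mem_ofPred_eq] at hi ⊢
    have a1 := h2 (Fin.cast eL i)
    have a2 := h3 (Fin.cast eL i)
    have g1 : (L.map f).get (Fin.cast eL i) = f (L.get i) := by simp
    have g2 : (M.map f).get (σ (Fin.cast eL i)) =
        f (M.get (Fin.cast eM (σ (Fin.cast eL i)))) := by simp
    rw [g1, g2] at a1 a2
    exact hP _ (List.get_mem L i) _ (List.get_mem M _) hi a1 a2
  · intro i _ j _ hij
    have h4 : σ (Fin.cast eL i) = σ (Fin.cast eL j) := by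
      have := congrArg Fin.val hij
      exact Fin.ext this
    have h5 := h1 h4
    have := congrArg Fin.val h5
    exact Fin.ext this

namespace Tm

/-- the labelled child of a digit -/
def Br (x : Tm) : ℕ × KT := (lab x, tr true x)

theorem ch_tr_false : ∀ {p : Tm}, NF false p → (tr false p).ch = (dig p).map Br
  | z, _ => rfl
  | c _ _ _, h => absurd h not_NF_false_c
  | q p x, h => by
    rw [tr, KT.ch, ch_app, ch_tr_false h.1, dig, List.map_cons, List.map_append]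
    rfl

theorem ch_tr_true_c (v : ℕ) (p x : Tm) :
    (tr true (c v p x)).ch = [(v + 1, tr false p), (lab x, tr true x)] := by
  simp [tr, KT.ch]

theorem length_dig : ∀ {p : Tm}, NF false p → p ≠ z → 3 ≤ (dig p).length
  | z, _, h => absurd rfl h
  | c _ _ _, h, _ => absurd h not_NF_false_c
  | q p x, h, _ => by
    have : 1 ≤ (dig p).length := by
      cases p with
      | z => simp [dig]
      | c _ _ _ => exact absurd h.1 not_NF_false_c
      | q _ _ => simp [dig]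
    simp only [dig, List.length_cons, List.length_append]
    omega

theorem ch_tr_false_ne_nil {p : Tm} (h : NF false p) : (tr false p).ch ≠ [] := by
  cases p with
  | z => simp [tr, KT.ch]
  | c _ _ _ => exact absurd h not_NF_false_c
  | q _ _ => simp [tr, KT.ch]

theorem lab_pos (x : Tm) : 1 ≤ lab x := by
  cases x <;> simp [lab]

end Tm

end Kriz
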