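import Pool.Agent.Work.MP_0f6836_lc.Ord2

/-!
# Values of terms
-/

namespace Kriz

open Ordinal

namespace Tm

theorem below_lead : ∀ {x : Tm}, NF true x → Below (lead x) x.val
  | z, _ => by simp only [val]; exact below_zero _
  | c v p x, h => by
    simp only [val, lead]
    have h2 : NF true x := h.2.1
    have h3 : lead x ≤ theta p.val v := h.2.2.2
    exact (below_self _).add ((below_lead h2).mono h3)
  | q _ _, h => absurd h (by simp [NF])

theorem lead_lt_Lam : ∀ (x : Tm), lead x < Lam
  | z => Lam_pos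
  | c _ _ _ => theta_lt_Lam
  | q _ _ => Lam_pos

theorem val_lt_Lam {x : Tm} (h : NF true x) : x.val < Lam :=
  below_lead h _ Lam_principal (lead_lt_Lam x)

theorem val_lt {x : Tm} (h : NF true x) {ρ : Ordinal.{0}} (hρ : IsPrincipal (· + ·) ρ)
    (hl : lead x < ρ) : x.val < ρ := below_lead h ρ hρ hl

theorem lead_le_val : ∀ (x : Tm), lead x ≤ x.val
  | z => le_rfl
  | c _ _ _ => le_self_add
  | q _ _ => zero_le

theorem NF_z (b : Bool) : NF b z := by cases b <;> exact True.intro

theorem NF_c_iff {v : ℕ} {p x : Tm} : NF true (c v p x) ↔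
    NF false p ∧ NF true x ∧ Valid v p.val ∧ lead x ≤ theta p.val v := Iff.rfl

theorem NF_q_iff {p x : Tm} : NF false (q p x) ↔
    NF false p ∧ NF true x ∧ Lam * p.val + x.val ≠ 0 := Iff.rfl

theorem not_NF_true_q {p x : Tm} : ¬ NF true (q p x) := fun h => h

theorem not_NF_false_c {v : ℕ} {p x : Tm} : ¬ NF false (c v p x) := fun h => h

/-- induction for sum terms -/
theorem val_c (v : ℕ) (p x : Tm) : (c v p x).val = theta p.val v + x.val := rfl

theorem val_q (p x : Tm) : (q p x).val = Lam * p.val + x.val := rfl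

theorem NF_dig : ∀ {p : Tm}, NF false p → ∀ x ∈ dig p, NF true x
  | z, _, x, hx => by
    simp only [dig, List.mem_singleton] at hx
    rw [hx]; exact NF_z _
  | c _ _ _, h, _, _ => absurd h not_NF_false_c
  | q p y, h, x, hx => by
    simp only [dig, List.mem_cons, List.mem_append, or_self] at hx
    rcases hx with rfl | hx
    · exact h.2.1
    · exact NF_dig h.1 x hx

theorem size_dig : ∀ {p : Tm}, NF false p → ∀ x ∈ dig p, x = z ∨ x.size < p.size
  | z, _, x, hx => by
    simp only [dig, List.mem_singleton] at hx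
    exact Or.inl hx
  | c _ _ _, h, _, _ => absurd h not_NF_false_c
  | q p y, h, x, hx => by
    simp only [dig, List.mem_cons, List.mem_append, or_self] at hx
    simp only [size]
    rcases hx with rfl | hx
    · right; omega
    · rcases size_dig h.1 x hx with h1 | h1
      · exact Or.inl h1
      · right; omega

theorem val_ne_zero {p : Tm} (h : NF false p) (hp : p ≠ z) : p.val ≠ 0 := by
  cases p with
  | z => exact absurd rfl hp
  | c _ _ _ => exact absurd h not_NF_false_c
  | q p x => exact h.2.2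

theorem size_pos {p : Tm} (hp : p ≠ z) : 0 < p.size := by
  cases p with
  | z => exact absurd rfl hp
  | c _ _ _ => simp only [size]; omega
  | q p x => simp only [size]; omega

/-! ## Counting digits -/

open Classical in
theorem countP_dig {θ : Ordinal.{0}} (hθ : 0 < θ) : ∀ {p : Tm}, NF false p →
    (dig p).countP (fun x => decide (θ ≤ x.val)) = cnt θ p
  | z, _ => by
    have : ¬ θ ≤ z.val := not_le_of_gt hθ
    simp [dig, cnt, this]
  | c _ _ _, h => absurd h not_NF_false_c
  | q p x, h => by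
    have ih := countP_dig hθ h.1
    rw [dig, List.countP_cons, List.countP_append, ih, cnt]
    by_cases hx : θ ≤ x.val
    · simp [hx]; omega
    · simp [hx]; omega

theorem cnt_eq_zero {θ : Ordinal.{0}} (hθ : 0 < θ) : ∀ {p : Tm}, NF false p → p.val = 0 →
    cnt θ p = 0
  | z, _, _ => rfl
  | c _ _ _, h, _ => absurd h not_NF_false_c
  | q p x, h, h0 => absurd h0 h.2.2

theorem cnt_congr {θ : Ordinal.{0}} (hθ : 0 < θ) : ∀ {p r : Tm}, NF false p → NF false r →
    p.val = r.val → cnt θ p = cnt θ r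
  | z, r, _, hr, h => by
    rw [cnt_eq_zero hθ hr (by rw [← h]; rfl)]; rfl
  | c _ _ _, _, h, _, _ => absurd h not_NF_false_c
  | q p x, z, h, _, h0 => absurd h0 h.2.2
  | q p x, c _ _ _, _, h, _ => absurd h not_NF_false_c
  | q p x, q r y, h, h', h0 => by
    obtain ⟨h1, h2⟩ := Lam_digit_unique (val_lt_Lam h.2.1) (val_lt_Lam h'.2.1) h0
    rw [cnt, cnt, cnt_congr hθ h.1 h'.1 h1, h2]

theorem exists_cnt_pos : ∀ {p : Tm}, NF false p → p.val ≠ 0 → ∃ θ, 0 < θ ∧ 0 < cnt θ p
  | z, _, h => absurd rfl h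
  | c _ _ _, h, _ => absurd h not_NF_false_c
  | q p x, h, _ => by
    by_cases h0 : p.val = 0
    · have hx : x.val ≠ 0 := by
        intro hx
        apply h.2.2
        rw [h0, hx, mul_zero, add_zero]
      refine ⟨x.val, pos_iff_ne_zero.2 hx, ?_⟩
      rw [cnt]; simp
    · obtain ⟨θ, h1, h2⟩ := exists_cnt_pos h.1 h0
      refine ⟨θ, h1, ?_⟩
      rw [cnt]; omega

theorem exists_cnt_lt : ∀ {p r : Tm}, NF false p → NF false r → r.val < p.val →
    ∃ θ, 0 < θ ∧ cnt θ r < cnt θ p
  | z, r, _, _, h => absurd h (not_lt_of_ge zero_le)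
  | c _ _ _, _, h, _, _ => absurd h not_NF_false_c
  | q p x, z, h, _, h0 => by
    obtain ⟨θ, h1, h2⟩ := exists_cnt_pos h h.2.2
    exact ⟨θ, h1, h2⟩
  | q p x, c _ _ _, _, h, _ => absurd h not_NF_false_c
  | q p x, q r y, h, h', h0 => by
    rcases lt_trichotomy r.val p.val with hlt | heq | hgt
    · obtain ⟨θ, h1, h2⟩ := exists_cnt_lt h.1 h'.1 hlt
      refine ⟨θ, h1, ?_⟩
      rw [cnt, cnt]
      split_ifs <;> omega
    · have h1 : y.val < x.val := by
        rw [val_q, val_q, heq] at h0
        exact (add_lt_add_iff_left _).1 h0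
      refine ⟨x.val, pos_of_gt h1, ?_⟩
      rw [cnt, cnt, cnt_congr (pos_of_gt h1) h'.1 h.1 heq]
      have : ¬ x.val ≤ y.val := not_le_of_gt h1
      simp [this]
    · exfalso
      have h1 : (q p x).val < Lam * r.val := by
        rw [val_q]
        have h2 : Lam * p.val + x.val < Lam * p.val + Lam :=
          (add_lt_add_iff_left _).2 (val_lt_Lam h.2.1)
        refine h2.trans_le ?_
        rw [← mul_add_one]
        exact mul_le_mul_right (Order.add_one_le_of_lt hgt) _
      exact absurd (h0.trans h1) (not_lt_of_ge (by rw [val_q]; exact le_self_add))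

theorem lex {p r : Tm} (hp : NF false p) (hr : NF false r)
    (h : ∀ θ, 0 < θ → cnt θ p ≤ cnt θ r) : p.val ≤ r.val := by
  by_contra hne
  obtain ⟨θ, h1, h2⟩ := exists_cnt_lt hp hr (not_le.1 hne)
  exact absurd (h θ h1) (not_le_of_gt h2)

end Tm

end Kriz
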